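import Pool.Agent.Helper799.UnionK.Minimax2

/-!
# Lipschitz extension across `n` well embeddable sets by averaging
-/

namespace H799U

open Finset BigOperators

universe u

section

variable {X : Type u} [DecidableEq X] [Fintype X]

/-- One step: extension across one well embeddable set. -/
theorem ext_step (dist : X → X → ℝ) (hds : ∀ x y, dist x y = dist y x)
    (hd0 : ∀ x y, 0 ≤ dist x y) (hdself : ∀ x, dist x x = 0)
    (hdpos : ∀ x y, x ≠ y → 0 < dist x y)
    (htri : ∀ x y z, dist x z ≤ dist x y + dist y z) (D : ℝ) (hD : 0 ≤ D)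
    (S : Set X) (hS : S.Nonempty) {ι : Type} [Fintype ι] (f : X → ι → ℝ) (c : ℝ) (hc : 0 < c)
    (hf : ∀ x ∈ S, ∀ y ∈ S, ∑ i, (f x i - f y i) ^ 2 ≤ c * dist x y ^ 2)
    (hg : ∃ (ι : Type) (_ : Fintype ι) (g : X → ι → ℝ), ∀ y z, y ∉ S → z ∉ S →
      ∑ i, (g y i - g z i) ^ 2 ≤ dist y z ^ 2 ∧
        dist y z ^ 2 ≤ D ^ 2 * ∑ i, (g y i - g z i) ^ 2)
    (M' : ℝ) (hM' : D ^ 2 + 4 < M') :
    ∃ F : X → ι → ℝ, (∀ x ∈ S, F x = f x) ∧
      ∀ x y, ∑ i, (F x i - F y i) ^ 2 ≤ M' * (c * dist x y ^ 2) := by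
  classical
  set l : X → Option Unit := fun x => if x ∈ S then none else some () with hl
  have hlnone : ∀ x, l x = none ↔ x ∈ S := by
    intro x
    simp only [hl]
    split_ifs with h
    · simp [h]
    · simp [h]
  have hlsome : ∀ x j, l x = some j → x ∉ S := by
    intro x j h hx
    rw [(hlnone x).mpr hx] at h
    exact absurd h (by simp)
  have hlab : lab l (Finset.univ : Finset Unit) = Finset.univ := by
    ext x
    simp only [lab, Finset.mem_filter, Finset.mem_univ, true_and, iff_true]
    by_cases h : x ∈ S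
    · exact Or.inl ((hlnone x).mpr h)
    · exact Or.inr ⟨(), by simp only [hl, if_neg h]⟩
  set sc : ℝ := (√c)⁻¹ with hsc
  have hsc0 : 0 < √c := Real.sqrt_pos.mpr hc
  have hsc2 : sc ^ 2 * c = 1 := by
    rw [hsc, inv_pow, Real.sq_sqrt hc.le]
    field_simp
  have hscale : ∀ (G : X → ι → ℝ) (t : ℝ) x y, ∑ i, (t * G x i - t * G y i) ^ 2
      = t ^ 2 * ∑ i, (G x i - G y i) ^ 2 := by
    intro G t x y
    rw [Finset.mul_sum]
    exact Finset.sum_congr rfl fun i _ => by ring
  obtain ⟨x₀, hx₀⟩ := hS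
  have hen := energy dist hds hd0 htri D hD l ⟨x₀, (hlnone x₀).mpr hx₀⟩
    (fun x i => sc * f x i)
    (fun x y hx hy => by
      rw [hscale]
      have := mul_le_mul_of_nonneg_left (hf x ((hlnone x).mp hx) y ((hlnone y).mp hy))
        (sq_nonneg sc)
      rw [← mul_assoc, hsc2, one_mul] at this
      exact this)
    (fun j => by
      obtain ⟨ι, hι, g', hg'⟩ := hg
      exact ⟨ι, hι, g', fun y z hy hz => hg' y z (hlsome y j hy) (hlsome z j hz)⟩)
    1 (Finset.univ) (by simp)
  have hgrow : grow D 1 = D ^ 2 + 4 := by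
    simp only [grow, Finset.prod_range_one]
    push_cast
    ring
  rw [hgrow, hlab] at hen
  obtain ⟨F, hF1, hF2⟩ := minimax2 S (fun x i => sc * f x i) dist hds hdself hdpos (D ^ 2 + 4) M'
    (by positivity) hM' (by
      intro w hpos hsym
      obtain ⟨F, hF1, hF2⟩ := hen w hpos hsym
      exact ⟨F, fun x hx => hF1 x ((hlnone x).mpr hx), hF2⟩)
  refine ⟨fun x i => √c * F x i, fun x hx => ?_, fun x y => ?_⟩
  · funext i
    show √c * F x i = f x i
    rw [hF1 x hx]
    show √c * (sc * f x i) = f x i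
    rw [← mul_assoc, hsc, mul_inv_cancel₀ hsc0.ne', one_mul]
  · rw [hscale, Real.sq_sqrt hc.le]
    have := mul_le_mul_of_nonneg_left (hF2 x y) hc.le
    linarith

end

/-- growth constant for the Lipschitz extension -/
noncomputable def gr2 (lam : ℝ) (n : ℕ) : ℝ :=
  ∏ j ∈ Finset.range n, (1 + 2 * (lam - 1) / ((j : ℝ) + 1))

lemma gr2_succ (lam : ℝ) (n : ℕ) :
    gr2 lam (n + 1) = gr2 lam n * (1 + 2 * (lam - 1) / ((n : ℝ) + 1)) := by
  rw [gr2, Finset.prod_range_succ, gr2]

lemma gr2_ge_one {lam : ℝ} (hl : 1 ≤ lam) (n : ℕ) : 1 ≤ gr2 lam n := by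
  induction n with
  | zero => simp [gr2]
  | succ n ih =>
    rw [gr2_succ]
    have : (0 : ℝ) ≤ 2 * (lam - 1) / ((n : ℝ) + 1) := by
      have : 0 ≤ lam - 1 := by linarith
      positivity
    nlinarith

theorem ext_avg {κ : Type} [DecidableEq κ] {ι : Type} [Fintype ι] (D : ℝ) (hD : 0 ≤ D)
    (lam : ℝ) (hlam0 : 0 ≤ lam) (hlam : D ^ 2 + 4 < lam ^ 2) (n : ℕ) :
    ∀ (X : Type u) [DecidableEq X] [Fintype X] (dist : X → X → ℝ)
      (_ : ∀ x y, dist x y = dist y x) (_ : ∀ x y, 0 ≤ dist x y) (_ : ∀ x, dist x x = 0)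
      (_ : ∀ x y, x ≠ y → 0 < dist x y) (_ : ∀ x y z, dist x z ≤ dist x y + dist y z)
      (l : X → Option κ) (J : Finset κ), J.card = n →
      (∀ x j, l x = some j → j ∈ J) → (∃ x, l x = none) →
      (∀ j : κ, ∃ (ι : Type) (_ : Fintype ι) (g : X → ι → ℝ), ∀ y z, l y = some j →
        l z = some j → ∑ i, (g y i - g z i) ^ 2 ≤ dist y z ^ 2 ∧
        dist y z ^ 2 ≤ D ^ 2 * ∑ i, (g y i - g z i) ^ 2) →
      ∀ f : X → ι → ℝ,
      (∀ x y, l x = none → l y = none → ∑ i, (f x i - f y i) ^ 2 ≤ dist x y ^ 2) →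
      ∃ F : X → ι → ℝ, (∀ x, l x = none → F x = f x) ∧
        ∀ x y, ∑ i, (F x i - F y i) ^ 2 ≤ (gr2 lam n * dist x y) ^ 2 := by
  classical
  have hlam1 : 1 ≤ lam := by nlinarith
  induction n with
  | zero =>
    intro X _ _ dist hds hd0 hdself hdpos htri l J hJ hlJ hbase hg f hf
    have hJ' : J = ∅ := Finset.card_eq_zero.mp hJ
    subst hJ'
    have hnone : ∀ x, l x = none := by
      intro x
      by_contra h
      obtain ⟨j, hj⟩ := Option.ne_none_iff_exists'.mp h
      exact absurd (hlJ x j hj) (by simp)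
    refine ⟨f, fun _ _ => rfl, fun x y => ?_⟩
    simp only [gr2, Finset.range_zero, Finset.prod_empty, one_mul]
    exact hf x y (hnone x) (hnone y)
  | succ n ih =>
    intro X _ _ dist hds hd0 hdself hdpos htri l J hJ hlJ hbase hg f hf
    have hgn := gr2_ge_one hlam1 n
    set gn := gr2 lam n with hgndef
    -- extension avoiding one label, then across it
    have key : ∀ j ∈ J, ∃ F : X → ι → ℝ, (∀ x, l x = none → F x = f x) ∧
        (∀ x y, l x ≠ some j → l y ≠ some j →
          ∑ i, (F x i - F y i) ^ 2 ≤ (gn * dist x y) ^ 2) ∧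
        (∀ x y, ∑ i, (F x i - F y i) ^ 2 ≤ (lam * (gn * dist x y)) ^ 2) := by
      intro j hj
      obtain ⟨F₁, hF₁1, hF₁2⟩ := ih {x : X // l x ≠ some j} (fun x y => dist x y)
        (fun x y => hds x y) (fun x y => hd0 x y) (fun x => hdself x)
        (fun x y h => hdpos x y (fun h' => h (Subtype.ext h'))) (fun x y z => htri x y z)
        (fun x => l x) (J.erase j) (by rw [Finset.card_erase_of_mem hj, hJ]; rfl)
        (fun x j' h => Finset.mem_erase.mpr ⟨fun h' => x.2 (h' ▸ h), hlJ x j' h⟩)
        (by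
          obtain ⟨x, hx⟩ := hbase
          exact ⟨⟨x, by rw [hx]; simp⟩, hx⟩)
        (fun j' => by
          obtain ⟨ι', hι', g, hgp⟩ := hg j'
          exact ⟨ι', hι', fun x => g x, fun y z hy hz => hgp y z hy hz⟩)
        (fun x => f x) (fun x y hx hy => hf x y hx hy)
      set F₂ : X → ι → ℝ := fun x => if h : l x ≠ some j then F₁ ⟨x, h⟩ else 0 with hF₂
      have hF₂eq : ∀ x (h : l x ≠ some j), F₂ x = F₁ ⟨x, h⟩ := by
        intro x h
        simp only [hF₂, dif_pos h]
      obtain ⟨F, hF1, hF2⟩ := ext_step dist hds hd0 hdself hdpos htri D hD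
        {x | l x ≠ some j}
        (by
          obtain ⟨x, hx⟩ := hbase
          exact ⟨x, by rw [Set.mem_setOf_eq, hx]; simp⟩)
        F₂ (gn ^ 2) (by positivity)
        (fun x hx y hy => by
          rw [hF₂eq x hx, hF₂eq y hy]
          have := hF₁2 ⟨x, hx⟩ ⟨y, hy⟩
          rw [mul_pow] at this
          exact this)
        (by
          obtain ⟨ι', hι', g, hgp⟩ := hg j
          refine ⟨ι', hι', g, fun y z hy hz => hgp y z ?_ ?_⟩
          · simpa using hy
          · simpa using hz)
        (lam ^ 2) hlam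
      refine ⟨F, fun x hx => ?_, fun x y hx hy => ?_, fun x y => ?_⟩
      · have hx' : l x ≠ some j := by rw [hx]; simp
        rw [hF1 x hx', hF₂eq x hx']
        exact hF₁1 ⟨x, hx'⟩ hx
      · rw [hF1 x hx, hF1 y hy, hF₂eq x hx, hF₂eq y hy]
        exact hF₁2 ⟨x, hx⟩ ⟨y, hy⟩
      · refine (hF2 x y).trans (le_of_eq ?_)
        ring
    choose! F hF1 hF2 hF3 using key
    have hn1 : (0 : ℝ) < (n : ℝ) + 1 := by positivity
    refine ⟨fun x i => (1 / ((n : ℝ) + 1)) * ∑ j ∈ J, F j x i, fun x hx => ?_, fun x y => ?_⟩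
    · funext i
      have h1 : ∑ j ∈ J, F j x i = ((n : ℝ) + 1) * f x i := by
        rw [Finset.sum_congr rfl (fun j hj => by rw [hF1 j hj x hx]), Finset.sum_const, hJ,
          nsmul_eq_mul]
        push_cast
        ring
      show (1 / ((n : ℝ) + 1)) * ∑ j ∈ J, F j x i = f x i
      rw [h1]
      field_simp
    · -- norms
      let V : (ι → ℝ) → EuclideanSpace ℝ ι := fun v => WithLp.toLp 2 v
      have hV : ∀ v w : ι → ℝ, ‖V v - V w‖ ^ 2 = ∑ i, (v i - w i) ^ 2 := by
        intro v w
        rw [EuclideanSpace.norm_sq_eq]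
        refine Finset.sum_congr rfl fun i _ => ?_
        simp only [V, PiLp.sub_apply, Real.norm_eq_abs, sq_abs]
      have hd := hd0 x y
      have hgd : 0 ≤ gn * dist x y := by positivity
      have hj : ∀ j ∈ J, ‖V (F j x) - V (F j y)‖ ≤ gn * dist x y
          + (if l x = some j then (lam - 1) * (gn * dist x y) else 0)
          + (if l y = some j then (lam - 1) * (gn * dist x y) else 0) := by
        intro j hj
        have hll : 0 ≤ (lam - 1) * (gn * dist x y) := mul_nonneg (by linarith) hgd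
        by_cases hx : l x = some j
        · rw [if_pos hx]
          have h1 : ‖V (F j x) - V (F j y)‖ ≤ lam * (gn * dist x y) := by
            refine (abs_le_of_sq_le_sq' ?_ (by positivity)).2
            rw [hV]
            exact hF3 j hj x y
          split_ifs <;> linarith
        · rw [if_neg hx]
          by_cases hy : l y = some j
          · rw [if_pos hy]
            have h1 : ‖V (F j x) - V (F j y)‖ ≤ lam * (gn * dist x y) := by
              refine (abs_le_of_sq_le_sq' ?_ (by positivity)).2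
              rw [hV]
              exact hF3 j hj x y
            linarith
          · rw [if_neg hy]
            have h1 : ‖V (F j x) - V (F j y)‖ ≤ gn * dist x y := by
              refine (abs_le_of_sq_le_sq' ?_ hgd).2
              rw [hV]
              exact hF2 j hj x y hx hy
            linarith
      have hone : ∀ z : X, ∑ j ∈ J, (if l z = some j then (lam - 1) * (gn * dist x y) else 0)
          ≤ (lam - 1) * (gn * dist x y) := by
        intro z
        have hll : 0 ≤ (lam - 1) * (gn * dist x y) := mul_nonneg (by linarith) hgd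
        rcases hz : l z with _ | j₀
        · simp only [reduceCtorEq, if_false, Finset.sum_const_zero]
          exact hll
        · have : ∀ j ∈ J, (if some j₀ = some j then (lam - 1) * (gn * dist x y) else 0)
              = if j₀ = j then (lam - 1) * (gn * dist x y) else 0 := by
            intro j _
            simp only [Option.some.injEq]
          rw [Finset.sum_congr rfl this, Finset.sum_ite_eq]
          split_ifs
          · exact le_rfl
          · exact hll
      have hsum : ∑ j ∈ J, ‖V (F j x) - V (F j y)‖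
          ≤ ((n : ℝ) + 1) * (gn * dist x y) + 2 * ((lam - 1) * (gn * dist x y)) := by
        refine (Finset.sum_le_sum hj).trans ?_
        rw [Finset.sum_add_distrib, Finset.sum_add_distrib, Finset.sum_const, hJ, nsmul_eq_mul]
        have h1 := hone x
        have h2 := hone y
        push_cast
        linarith
      have hfin : ‖V (fun i => (1 / ((n : ℝ) + 1)) * ∑ j ∈ J, F j x i)
          - V (fun i => (1 / ((n : ℝ) + 1)) * ∑ j ∈ J, F j y i)‖ ≤ gr2 lam (n + 1) * dist x y := by
        have h1 : V (fun i => (1 / ((n : ℝ) + 1)) * ∑ j ∈ J, F j x i)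
            - V (fun i => (1 / ((n : ℝ) + 1)) * ∑ j ∈ J, F j y i)
            = (1 / ((n : ℝ) + 1)) • ∑ j ∈ J, (V (F j x) - V (F j y)) := by
          ext i
          simp only [V, PiLp.sub_apply, PiLp.smul_apply, smul_eq_mul, WithLp.ofLp_sum,
            Finset.sum_apply, WithLp.ofLp_sub, Pi.sub_apply]
          rw [Finset.sum_sub_distrib]
          ring
        rw [h1, norm_smul, Real.norm_of_nonneg (by positivity)]
        calc (1 / ((n : ℝ) + 1)) * ‖∑ j ∈ J, (V (F j x) - V (F j y))‖
            ≤ (1 / ((n : ℝ) + 1)) * (((n : ℝ) + 1) * (gn * dist x y)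
              + 2 * ((lam - 1) * (gn * dist x y))) :=
              mul_le_mul_of_nonneg_left ((norm_sum_le _ _).trans hsum) (by positivity)
          _ = gr2 lam (n + 1) * dist x y := by
              rw [gr2_succ, ← hgndef]
              field_simp
      rw [← hV]
      exact pow_le_pow_left₀ (norm_nonneg _) hfin 2

end H799U
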