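import Pool.Agent.Helper799.UnionK.Trace

/-!
# Energy-minimising extensions across `k` well embeddable sets
-/

namespace H799U

open Finset BigOperators

section
variable {X : Type*} [DecidableEq X] [Fintype X] {κ : Type*} [DecidableEq κ]

/-- points whose label is `none` or belongs to `J` -/
def lab (l : X → Option κ) (J : Finset κ) : Finset X :=
  Finset.univ.filter (fun x => l x = none ∨ ∃ j ∈ J, l x = some j)

def cls (l : X → Option κ) (j : κ) : Finset X :=
  Finset.univ.filter (fun x => l x = some j)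

lemma lab_erase (l : X → Option κ) (J : Finset κ) (i : κ) (hi : i ∈ J) :
    lab l J = lab l (J.erase i) ∪ cls l i := by
  ext x
  simp only [lab, cls, Finset.mem_filter, Finset.mem_univ, true_and, Finset.mem_union,
    Finset.mem_erase]
  constructor
  · rintro (h | ⟨j, hj, h⟩)
    · exact Or.inl (Or.inl h)
    · by_cases hji : j = i
      · subst hji; exact Or.inr h
      · exact Or.inl (Or.inr ⟨j, ⟨hji, hj⟩, h⟩)
  · rintro ((h | ⟨j, ⟨_, hj⟩, h⟩) | h)
    · exact Or.inl h
    · exact Or.inr ⟨j, hj, h⟩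
    · exact Or.inr ⟨i, hi, h⟩

lemma lab_disj (l : X → Option κ) (J : Finset κ) (i : κ) :
    Disjoint (lab l (J.erase i)) (cls l i) := by
  rw [Finset.disjoint_left]
  intro x hx hx'
  simp only [lab, cls, Finset.mem_filter, Finset.mem_univ, true_and, Finset.mem_erase] at hx hx'
  rcases hx with h | ⟨j, ⟨hne, _⟩, h⟩
  · rw [h] at hx'; exact absurd hx' (by simp)
  · rw [h] at hx'
    exact hne (Option.some.inj hx')

lemma sum_cls_le (l : X → Option κ) (J : Finset κ) (h : X → ℝ) (hh : ∀ x, 0 ≤ h x) :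
    ∑ i ∈ J, ∑ y ∈ cls l i, h y ≤ ∑ y ∈ lab l J, h y := by
  classical
  rw [← Finset.sum_biUnion]
  · apply Finset.sum_le_sum_of_subset_of_nonneg
    · intro x hx
      simp only [Finset.mem_biUnion, cls, lab, Finset.mem_filter, Finset.mem_univ, true_and] at hx ⊢
      obtain ⟨j, hj, h⟩ := hx
      exact Or.inr ⟨j, hj, h⟩
    · intro x _ _; exact hh x
  · intro i _ j _ hij
    change Disjoint (cls l i) (cls l j)
    rw [Finset.disjoint_left]
    intro x hx hx'
    simp only [cls, Finset.mem_filter, Finset.mem_univ, true_and] at hx hx'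
    rw [hx] at hx'
    exact hij (Option.some.inj hx')

/-- growth constant -/
noncomputable def grow (D : ℝ) (n : ℕ) : ℝ := ∏ j ∈ Finset.range n, (1 + (D ^ 2 + 3) / ((j : ℝ) + 1))

lemma grow_pos (D : ℝ) (n : ℕ) : 0 < grow D n :=
  Finset.prod_pos fun j _ => by positivity

lemma grow_succ (D : ℝ) (n : ℕ) :
    grow D (n + 1) = grow D n * (1 + (D ^ 2 + 3) / ((n : ℝ) + 1)) := by
  rw [grow, Finset.prod_range_succ, grow]

theorem energy (dist : X → X → ℝ) (hds : ∀ x y, dist x y = dist y x) (hd0 : ∀ x y, 0 ≤ dist x y)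
    (htri : ∀ x y z, dist x z ≤ dist x y + dist y z) (D : ℝ) (hD : 0 ≤ D)
    (l : X → Option κ) (hbase : ∃ x, l x = none) {ι₀ : Type} [Fintype ι₀] (f : X → ι₀ → ℝ)
    (hf : ∀ x y, l x = none → l y = none → ∑ i, (f x i - f y i) ^ 2 ≤ dist x y ^ 2)
    (hg : ∀ j : κ, ∃ (ι : Type) (_ : Fintype ι) (g : X → ι → ℝ), ∀ y z, l y = some j →
      l z = some j → ∑ i, (g y i - g z i) ^ 2 ≤ dist y z ^ 2 ∧
        dist y z ^ 2 ≤ D ^ 2 * ∑ i, (g y i - g z i) ^ 2)
    (n : ℕ) : ∀ (J : Finset κ), J.card = n → ∀ (w : X → X → ℝ), (∀ x y, 0 < w x y) →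
      (∀ x y, w x y = w y x) →
      ∃ F : X → ι₀ → ℝ, (∀ x, l x = none → F x = f x) ∧
        ∑ x ∈ lab l J, ∑ y ∈ lab l J, w x y * ∑ i, (F x i - F y i) ^ 2
          ≤ grow D n * ∑ x ∈ lab l J, ∑ y ∈ lab l J, w x y * dist x y ^ 2 := by
  induction n with
  | zero =>
    intro J hJ w hpos _
    refine ⟨f, fun _ _ => rfl, ?_⟩
    have hJ' : J = ∅ := Finset.card_eq_zero.mp hJ
    subst hJ'
    simp only [grow, Finset.range_zero, Finset.prod_empty, one_mul]
    refine Finset.sum_le_sum fun x hx => Finset.sum_le_sum fun y hy => ?_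
    simp only [lab, Finset.mem_filter, Finset.mem_univ, true_and, Finset.notMem_empty,
      false_and, exists_false, or_false] at hx hy
    exact mul_le_mul_of_nonneg_left (hf x y hx hy) (hpos x y).le
  | succ n ih =>
    intro J hJ w hpos hsym
    have hJne : J.Nonempty := by
      rw [← Finset.card_pos, hJ]; exact Nat.succ_pos n
    set E : ℝ := ∑ x ∈ lab l J, ∑ y ∈ lab l J, w x y * dist x y ^ 2 with hE
    have hE0 : 0 ≤ E := Finset.sum_nonneg fun x _ => Finset.sum_nonneg fun y _ =>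
      mul_nonneg (hpos x y).le (sq_nonneg _)
    have hsum : ∑ i ∈ J, ∑ x ∈ lab l J, ∑ y ∈ cls l i, w x y * dist x y ^ 2
        ≤ ∑ _i ∈ J, E / ((n : ℝ) + 1) := by
      rw [Finset.sum_const, hJ, nsmul_eq_mul]
      have h1 : ((n + 1 : ℕ) : ℝ) * (E / ((n : ℝ) + 1)) = E := by
        push_cast
        field_simp
      rw [h1, Finset.sum_comm]
      exact Finset.sum_le_sum fun x _ => sum_cls_le l J _
        (fun y => mul_nonneg (hpos x y).le (sq_nonneg _))
    obtain ⟨i, hiJ, hi⟩ := Finset.exists_le_of_sum_le hJne hsum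
    set S := lab l (J.erase i) with hS
    set Y := cls l i with hY
    have hSY : lab l J = S ∪ Y := lab_erase l J i hiJ
    have hdis : Disjoint S Y := lab_disj l J i
    have hSne : S.Nonempty := by
      obtain ⟨x, hx⟩ := hbase
      exact ⟨x, by simp [hS, lab, hx]⟩
    obtain ⟨w', hw'pos, hw'sym, hext, hmet⟩ := exists_trace S Y hdis hSne w hpos hsym
    obtain ⟨ι, hι, g, hgp⟩ := hg i
    have hcard : (J.erase i).card = n := by
      rw [Finset.card_erase_of_mem hiJ, hJ]; rfl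
    obtain ⟨F', hF'f, hF'⟩ := ih (J.erase i) hcard w' hw'pos hw'sym
    have hYmem : ∀ y ∈ Y, l y = some i := by
      intro y hy
      simpa [hY, cls] using hy
    have hm := hmet dist ι hι g D hds hd0 htri hD
      (fun y hy z hz => (hgp y z (hYmem y hy) (hYmem z hz)).1)
      (fun y hy z hz => (hgp y z (hYmem y hy) (hYmem z hz)).2)
    choose ψ hψ1 hψ2 using fun a : ι₀ => hext (fun x => F' x a)
    refine ⟨fun x a => ψ a x, ?_, ?_⟩
    · intro x hx
      funext a
      have hxY : x ∉ Y := by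
        intro h
        have := hYmem x h
        rw [hx] at this
        exact absurd this (by simp)
      change ψ a x = f x a
      rw [hψ1 a x hxY]
      exact congrFun (hF'f x hx) a
    · have swap : ∀ (T : Finset X) (v : X → X → ℝ) (G : X → ι₀ → ℝ),
          ∑ x ∈ T, ∑ y ∈ T, v x y * ∑ a, (G x a - G y a) ^ 2
            = ∑ a, ∑ x ∈ T, ∑ y ∈ T, v x y * (G x a - G y a) ^ 2 := by
        intro T v G
        calc ∑ x ∈ T, ∑ y ∈ T, v x y * ∑ a, (G x a - G y a) ^ 2
            = ∑ x ∈ T, ∑ y ∈ T, ∑ a, v x y * (G x a - G y a) ^ 2 := by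
              refine Finset.sum_congr rfl fun y _ => Finset.sum_congr rfl fun z _ => ?_
              rw [Finset.mul_sum]
          _ = ∑ x ∈ T, ∑ a, ∑ y ∈ T, v x y * (G x a - G y a) ^ 2 := by
              refine Finset.sum_congr rfl fun y _ => ?_
              rw [Finset.sum_comm]
          _ = _ := by rw [Finset.sum_comm]
      calc ∑ x ∈ lab l J, ∑ y ∈ lab l J, w x y * ∑ a, (ψ a x - ψ a y) ^ 2
          = ∑ x ∈ S ∪ Y, ∑ y ∈ S ∪ Y, w x y * ∑ a, (ψ a x - ψ a y) ^ 2 := by rw [hSY]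
        _ = ∑ a, ∑ x ∈ S ∪ Y, ∑ y ∈ S ∪ Y, w x y * (ψ a x - ψ a y) ^ 2 :=
            swap (S ∪ Y) w (fun x a => ψ a x)
        _ ≤ ∑ a, ∑ x ∈ S, ∑ y ∈ S, w' x y * (F' x a - F' y a) ^ 2 :=
            Finset.sum_le_sum fun a _ => hψ2 a
        _ = ∑ x ∈ S, ∑ y ∈ S, w' x y * ∑ a, (F' x a - F' y a) ^ 2 := (swap S w' F').symm
        _ ≤ grow D n * ∑ x ∈ S, ∑ y ∈ S, w' x y * dist x y ^ 2 := hF'
        _ ≤ grow D n * ((1 + (D ^ 2 + 3) / ((n : ℝ) + 1)) * E) := by
            apply mul_le_mul_of_nonneg_left _ (grow_pos D n).le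
            rw [← hSY] at hm
            rw [← hE] at hm
            have h3 : (D ^ 2 + 3) * ∑ x ∈ lab l J, ∑ y ∈ Y, w x y * dist x y ^ 2
                ≤ (D ^ 2 + 3) * (E / ((n : ℝ) + 1)) :=
              mul_le_mul_of_nonneg_left hi (by positivity)
            have h4 : (1 + (D ^ 2 + 3) / ((n : ℝ) + 1)) * E
                = E + (D ^ 2 + 3) * (E / ((n : ℝ) + 1)) := by ring
            rw [h4]
            linarith
        _ = grow D (n + 1) * E := by
            rw [grow_succ]; ring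

end

end H799U
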