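import Mathlib

/-!
# Passing from finite subsets to the whole metric space
-/

namespace H799U

open Filter Topology

universe u

/-- A real symmetric positive semidefinite kernel is the Gram kernel of vectors in a Hilbert
space (in the same universe). -/
theorem exists_hilbert_of_kernel {X : Type u} (B : X → X → ℝ) (hs : ∀ x y, B x y = B y x)
    (hp : ∀ c : X →₀ ℝ, 0 ≤ c.sum fun x a => c.sum fun y b => a * b * B x y) :
    ∃ (H : Type u) (_ : NormedAddCommGroup H) (_ : InnerProductSpace ℝ H) (_ : CompleteSpace H)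
      (Φ : X → H), ∀ x y, inner ℝ (Φ x) (Φ y) = B x y := by
  classical
  set K : Matrix X X (ℝ →L[ℝ] ℝ) :=
    Matrix.of fun x y => B x y • (1 : ℝ →L[ℝ] ℝ) with hK
  have hherm : K.IsHermitian := by
    ext x y
    simp only [hK, Matrix.conjTranspose_apply, Matrix.of_apply]
    rw [hs y x, star_smul, star_one]
    simp
  have hpos : K.PosSemidef := by
    have htf := (RKHS.posSemidef_tfae (K := K)).out 0 2
    refine htf.mpr ⟨hherm, fun vv => ?_⟩
    have h := hp vv
    have e : (vv.sum fun x w => vv.sum fun x' w' => inner ℝ ((K x' x) w) w')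
        = vv.sum fun x a => vv.sum fun y b => a * b * B x y := by
      refine Finsupp.sum_congr fun x _ => Finsupp.sum_congr fun y _ => ?_
      simp only [hK, Matrix.of_apply]
      simp
      rw [hs y x]
      ring
    rw [e]
    simpa using h
  haveI : Fact K.PosSemidef := ⟨hpos⟩
  refine ⟨RKHS.OfKernel K, inferInstance, inferInstance, inferInstance,
    fun x => RKHS.kerFun (RKHS.OfKernel K) x 1, fun x y => ?_⟩
  rw [← RKHS.kernel_inner, RKHS.OfKernel.kernel_ofKernel]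
  simp [hK, hs y x]

theorem limit_embedding {X : Type u} (d : X → X → ℝ) (K : ℝ)
    (hfin : ∀ T : Finset X, ∃ (ι : Type) (_ : Fintype ι) (Φ : X → ι → ℝ), ∀ x ∈ T, ∀ y ∈ T,
      d x y ^ 2 ≤ ∑ a, (Φ x a - Φ y a) ^ 2 ∧ ∑ a, (Φ x a - Φ y a) ^ 2 ≤ K * d x y ^ 2) :
    ∃ (H : Type u) (_ : NormedAddCommGroup H) (_ : InnerProductSpace ℝ H) (_ : CompleteSpace H)
      (Φ : X → H), ∀ x y, d x y ^ 2 ≤ ‖Φ x - Φ y‖ ^ 2 ∧ ‖Φ x - Φ y‖ ^ 2 ≤ K * d x y ^ 2 := by
  classical
  rcases isEmpty_or_nonempty X with hX | ⟨⟨x₀⟩⟩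
  · obtain ⟨H, i1, i2, i3, Φ, _⟩ := exists_hilbert_of_kernel (X := X) (fun _ _ => 0)
      (fun _ _ => rfl) (fun c => by simp)
    exact ⟨H, i1, i2, i3, Φ, fun x => (hX.false x).elim⟩
  choose ι hι Φ hΦ using hfin
  set 𝒰 : Ultrafilter (Finset X) := Ultrafilter.of (atTop : Filter (Finset X)) with h𝒰
  have h𝒰le : (𝒰 : Filter (Finset X)) ≤ atTop := Ultrafilter.of_le _
  have hev : ∀ s : Finset X, ∀ᶠ T in (𝒰 : Filter (Finset X)), s ⊆ T := by
    intro s
    exact h𝒰le (eventually_ge_atTop s)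
  set BT : Finset X → X → X → ℝ := fun T x y =>
    ∑ a, (Φ T x a - Φ T x₀ a) * (Φ T y a - Φ T x₀ a) with hBT
  have hq : ∀ T x y, ∑ a, (Φ T x a - Φ T y a) ^ 2 = BT T x x + BT T y y - 2 * BT T x y := by
    intro T x y
    simp only [hBT]
    rw [Finset.mul_sum, ← Finset.sum_add_distrib, ← Finset.sum_sub_distrib]
    refine Finset.sum_congr rfl fun a _ => ?_
    ring
  have hbdd : ∀ x y, ∀ᶠ T in (𝒰 : Filter (Finset X)),
      BT T x y ∈ Set.Icc (-((K * d x x₀ ^ 2 + K * d y x₀ ^ 2) / 2))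
        ((K * d x x₀ ^ 2 + K * d y x₀ ^ 2) / 2) := by
    intro x y
    filter_upwards [hev {x, y, x₀}] with T hT
    have hx : x ∈ T := hT (by simp)
    have hy : y ∈ T := hT (by simp)
    have h0 : x₀ ∈ T := hT (by simp)
    have h1 := (hΦ T x hx x₀ h0).2
    have h2 := (hΦ T y hy x₀ h0).2
    have h3 : ∀ a, |(Φ T x a - Φ T x₀ a) * (Φ T y a - Φ T x₀ a)|
        ≤ ((Φ T x a - Φ T x₀ a) ^ 2 + (Φ T y a - Φ T x₀ a) ^ 2) / 2 := by
      intro a
      rw [abs_le]
      constructor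
      · nlinarith [sq_nonneg ((Φ T x a - Φ T x₀ a) + (Φ T y a - Φ T x₀ a))]
      · nlinarith [sq_nonneg ((Φ T x a - Φ T x₀ a) - (Φ T y a - Φ T x₀ a))]
    have h4 : |BT T x y| ≤ (K * d x x₀ ^ 2 + K * d y x₀ ^ 2) / 2 := by
      calc |BT T x y| ≤ ∑ a, |(Φ T x a - Φ T x₀ a) * (Φ T y a - Φ T x₀ a)| :=
            Finset.abs_sum_le_sum_abs _ _
        _ ≤ ∑ a, ((Φ T x a - Φ T x₀ a) ^ 2 + (Φ T y a - Φ T x₀ a) ^ 2) / 2 :=
            Finset.sum_le_sum fun a _ => h3 a
        _ = (∑ a, (Φ T x a - Φ T x₀ a) ^ 2 + ∑ a, (Φ T y a - Φ T x₀ a) ^ 2) / 2 := by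
            rw [← Finset.sum_div, Finset.sum_add_distrib]
        _ ≤ _ := by linarith
    exact ⟨(abs_le.mp h4).1, (abs_le.mp h4).2⟩
  have hlim : ∀ x y, ∃ b, Tendsto (fun T => BT T x y) (𝒰 : Filter (Finset X)) (𝓝 b) := by
    intro x y
    obtain ⟨b, _, hb⟩ := (isCompact_Icc (a := -((K * d x x₀ ^ 2 + K * d y x₀ ^ 2) / 2))
      (b := (K * d x x₀ ^ 2 + K * d y x₀ ^ 2) / 2)).ultrafilter_le_nhds
      (𝒰.map (fun T => BT T x y)) (by
        rw [Filter.le_principal_iff]
        exact hbdd x y)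
    exact ⟨b, hb⟩
  choose B hB using hlim
  have hsB : ∀ x y, B x y = B y x := by
    intro x y
    refine tendsto_nhds_unique (hB x y) ?_
    refine (hB y x).congr fun T => ?_
    simp only [hBT]
    exact Finset.sum_congr rfl fun a _ => mul_comm _ _
  have hpB : ∀ c : X →₀ ℝ, 0 ≤ c.sum fun x a => c.sum fun y b => a * b * B x y := by
    intro c
    have ht : Tendsto (fun T => c.sum fun x a => c.sum fun y b => a * b * BT T x y)
        (𝒰 : Filter (Finset X)) (𝓝 (c.sum fun x a => c.sum fun y b => a * b * B x y)) := by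
      simp only [Finsupp.sum]
      exact tendsto_finsetSum _ fun x _ => tendsto_finsetSum _ fun y _ =>
        (hB x y).const_mul _
    refine ge_of_tendsto' ht fun T => ?_
    simp only [Finsupp.sum]
    have e : ∑ x ∈ c.support, ∑ y ∈ c.support, c x * c y * BT T x y
        = ∑ a, (∑ x ∈ c.support, c x * (Φ T x a - Φ T x₀ a)) ^ 2 := by
      simp only [hBT, Finset.mul_sum]
      calc ∑ x ∈ c.support, ∑ y ∈ c.support, ∑ a,
            c x * c y * ((Φ T x a - Φ T x₀ a) * (Φ T y a - Φ T x₀ a))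
          = ∑ x ∈ c.support, ∑ a, ∑ y ∈ c.support,
            c x * c y * ((Φ T x a - Φ T x₀ a) * (Φ T y a - Φ T x₀ a)) := by
            refine Finset.sum_congr rfl fun x _ => ?_
            rw [Finset.sum_comm]
        _ = ∑ a, ∑ x ∈ c.support, ∑ y ∈ c.support,
            c x * c y * ((Φ T x a - Φ T x₀ a) * (Φ T y a - Φ T x₀ a)) := by
            rw [Finset.sum_comm]
        _ = _ := by
            refine Finset.sum_congr rfl fun a _ => ?_
            rw [sq, Finset.sum_mul]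
            refine Finset.sum_congr rfl fun x _ => ?_
            rw [Finset.mul_sum]
            refine Finset.sum_congr rfl fun y _ => ?_
            ring
    rw [e]
    exact Finset.sum_nonneg fun a _ => sq_nonneg _
  obtain ⟨H, i1, i2, i3, Ψ, hΨ⟩ := exists_hilbert_of_kernel B hsB hpB
  refine ⟨H, i1, i2, i3, Ψ, fun x y => ?_⟩
  have hn : ‖Ψ x - Ψ y‖ ^ 2 = B x x + B y y - 2 * B x y := by
    rw [norm_sub_sq_real, ← real_inner_self_eq_norm_sq, ← real_inner_self_eq_norm_sq, hΨ, hΨ, hΨ]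
    ring
  have ht : Tendsto (fun T => ∑ a, (Φ T x a - Φ T y a) ^ 2) (𝒰 : Filter (Finset X))
      (𝓝 (B x x + B y y - 2 * B x y)) := by
    simp only [hq]
    exact ((hB x x).add (hB y y)).sub ((hB x y).const_mul 2)
  rw [hn]
  constructor
  · refine ge_of_tendsto ht ?_
    filter_upwards [hev {x, y}] with T hT
    exact (hΦ T x (hT (by simp)) y (hT (by simp))).1
  · refine le_of_tendsto ht ?_
    filter_upwards [hev {x, y}] with T hT
    exact (hΦ T x (hT (by simp)) y (hT (by simp))).2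

end H799U
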