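import Pool.Agent.Helper799.UnionK.FinEmb
import Pool.Agent.Helper799.UnionK.Avg
import Pool.Agent.Helper799.UnionK.Limit

/-!
# Embedding of a union of `k` sets, with the averaged extension
-/

namespace H799U

open Finset BigOperators

universe u

section
variable {X : Type u} [DecidableEq X] [Fintype X]

theorem ext_one2 (dist : X → X → ℝ) (hds : ∀ x y, dist x y = dist y x)
    (hd0 : ∀ x y, 0 ≤ dist x y) (hdself : ∀ x, dist x x = 0)
    (hdpos : ∀ x y, x ≠ y → 0 < dist x y)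
    (htri : ∀ x y z, dist x z ≤ dist x y + dist y z) (D : ℝ) (hD : 0 ≤ D)
    (k : ℕ) (A : Fin k → Set X) (hcov : ∀ x, ∃ i, x ∈ A i)
    (hg : ∀ j : Fin k, ∃ (ι : Type) (_ : Fintype ι) (g : X → ι → ℝ), ∀ y ∈ A j, ∀ z ∈ A j,
      ∑ i, (g y i - g z i) ^ 2 ≤ dist y z ^ 2 ∧
        dist y z ^ 2 ≤ D ^ 2 * ∑ i, (g y i - g z i) ^ 2)
    (lam : ℝ) (hlam0 : 0 ≤ lam) (hlam : D ^ 2 + 4 < lam ^ 2) (i : Fin k) :
    ∃ (ι : Type) (_ : Fintype ι) (F : X → ι → ℝ),
      (∀ x ∈ A i, ∀ y ∈ A i, dist x y ^ 2 ≤ D ^ 2 * ∑ a, (F x a - F y a) ^ 2) ∧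
      ∀ x y, ∑ a, (F x a - F y a) ^ 2 ≤ (gr2 lam (k - 1)) ^ 2 * dist x y ^ 2 := by
  classical
  by_cases hA : (A i).Nonempty
  swap
  · refine ⟨Fin 0, inferInstance, fun _ _ => 0, ?_, ?_⟩
    · intro x hx
      exact absurd ⟨x, hx⟩ hA
    · intro x y
      have := hd0 x y
      simp
      positivity
  obtain ⟨ι₀, hι₀, g, hgi⟩ := hg i
  choose c hc using hcov
  set l : X → Option (Fin k) := fun x => if x ∈ A i then none else some (c x) with hl
  have hlnone : ∀ x, l x = none ↔ x ∈ A i := by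
    intro x
    simp only [hl]
    split_ifs with h
    · simp [h]
    · simp [h]
  have hlsome : ∀ x j, l x = some j → x ∈ A j := by
    intro x j h
    simp only [hl] at h
    split_ifs at h with h'
    · have : c x = j := Option.some.inj h
      rw [← this]; exact hc x
  obtain ⟨F, hF1, hF2⟩ := ext_avg (κ := Fin k) (ι := ι₀) D hD lam hlam0 hlam (k - 1) X dist hds hd0
    hdself hdpos htri l (Finset.univ.erase i)
    (by rw [Finset.card_erase_of_mem (Finset.mem_univ i), Finset.card_univ, Fintype.card_fin])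
    (fun x j h => by
      refine Finset.mem_erase.mpr ⟨?_, Finset.mem_univ _⟩
      intro hj
      subst hj
      have h1 := (hlnone x).mpr (hlsome x j h)
      rw [h] at h1
      exact absurd h1 (by simp))
    (by obtain ⟨x, hx⟩ := hA; exact ⟨x, (hlnone x).mpr hx⟩)
    (fun j => by
      obtain ⟨ι, hι, g', hg'⟩ := hg j
      exact ⟨ι, hι, g', fun y z hy hz => hg' y (hlsome y j hy) z (hlsome z j hz)⟩)
    g (fun x y hx hy => (hgi x ((hlnone x).mp hx) y ((hlnone y).mp hy)).1)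
  refine ⟨ι₀, hι₀, F, ?_, fun x y => ?_⟩
  · intro x hx y hy
    rw [hF1 x ((hlnone x).mpr hx), hF1 y ((hlnone y).mpr hy)]
    exact (hgi x hx y hy).2
  · rw [← mul_pow]
    exact hF2 x y

theorem fin_embedding2 (dist : X → X → ℝ) (hds : ∀ x y, dist x y = dist y x)
    (hd0 : ∀ x y, 0 ≤ dist x y) (hdself : ∀ x, dist x x = 0)
    (hdpos : ∀ x y, x ≠ y → 0 < dist x y)
    (htri : ∀ x y z, dist x z ≤ dist x y + dist y z) (D : ℝ) (hD : 1 ≤ D)
    (k : ℕ) (A : Fin k → Set X) (hcov : ∀ x, ∃ i, x ∈ A i)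
    (hg : ∀ j : Fin k, ∃ (ι : Type) (_ : Fintype ι) (g : X → ι → ℝ), ∀ y ∈ A j, ∀ z ∈ A j,
      ∑ i, (g y i - g z i) ^ 2 ≤ dist y z ^ 2 ∧
        dist y z ^ 2 ≤ D ^ 2 * ∑ i, (g y i - g z i) ^ 2)
    (M' : ℝ) (hM'1 : 1 ≤ M')
    (hext : ∀ i : Fin k, ∃ (ι : Type) (_ : Fintype ι) (F : X → ι → ℝ),
      (∀ x ∈ A i, ∀ y ∈ A i, dist x y ^ 2 ≤ D ^ 2 * ∑ a, (F x a - F y a) ^ 2) ∧
      ∀ x y, ∑ a, (F x a - F y a) ^ 2 ≤ M' * dist x y ^ 2) :
    ∃ (ι : Type) (_ : Fintype ι) (Φ : X → ι → ℝ), ∀ x y,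
      dist x y ^ 2 ≤ ∑ a, (Φ x a - Φ y a) ^ 2 ∧
      ∑ a, (Φ x a - Φ y a) ^ 2 ≤ (10 * D ^ 2 * k * M') * dist x y ^ 2 := by
  classical
  have hD0 : 0 < D := lt_of_lt_of_le one_pos hD
  choose ι hι F hF1 hF2 using hext
  choose ρ hρ1 hρ2 hρ3 hρ0 using fun i => exists_rho dist hds hd0 hdself htri (A i)
  set L : ℝ := Real.sqrt M' with hL
  have hL2 : L ^ 2 = M' := Real.sq_sqrt (by linarith)
  have hL0 : 0 ≤ L := Real.sqrt_nonneg _
  have hL1 : 1 ≤ L := by rw [hL]; exact Real.one_le_sqrt.mpr hM'1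
  set c : ℝ := L + 1 / D with hc
  have hDinv : 1 / D ≤ 1 := by rw [div_le_one hD0]; exact hD
  have hDinv0 : 0 < 1 / D := by positivity
  have hc2 : c ^ 2 ≤ 4 * M' := by
    have : c ≤ 2 * L := by rw [hc]; linarith
    have hc0 : 0 ≤ c := by rw [hc]; linarith
    nlinarith
  have hs2 : Real.sqrt 2 ^ 2 = 2 := Real.sq_sqrt (by norm_num)
  refine ⟨(Σ i : Fin k, ι i) ⊕ Fin k, inferInstance, fun x => Sum.elim
    (fun p => Real.sqrt 2 * D * F p.1 x p.2) (fun i => Real.sqrt 2 * D * (c * ρ i x)), ?_⟩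
  intro x y
  have hsum : ∑ a : (Σ i : Fin k, ι i) ⊕ Fin k,
      (Sum.elim (fun p : (Σ i : Fin k, ι i) => Real.sqrt 2 * D * F p.1 x p.2)
        (fun i => Real.sqrt 2 * D * (c * ρ i x)) a
        - Sum.elim (fun p : (Σ i : Fin k, ι i) => Real.sqrt 2 * D * F p.1 y p.2)
        (fun i => Real.sqrt 2 * D * (c * ρ i y)) a) ^ 2
      = 2 * D ^ 2 * (∑ i, ∑ a, (F i x a - F i y a) ^ 2 + c ^ 2 * ∑ i, (ρ i x - ρ i y) ^ 2) := by
    rw [Fintype.sum_sum_type, Fintype.sum_sigma]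
    simp only [Sum.elim_inl, Sum.elim_inr]
    rw [mul_add]
    congr 1
    · rw [Finset.mul_sum]
      refine Finset.sum_congr rfl fun i _ => ?_
      rw [Finset.mul_sum]
      refine Finset.sum_congr rfl fun a _ => ?_
      rw [← mul_sub, mul_pow, mul_pow, hs2]
    · rw [Finset.mul_sum, Finset.mul_sum]
      refine Finset.sum_congr rfl fun i _ => ?_
      rw [← mul_sub, mul_pow, mul_pow, hs2]
      ring
  rw [hsum]
  constructor
  · obtain ⟨i, hi⟩ := hcov x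
    obtain ⟨z, hz, hyz⟩ := hρ3 i ⟨x, hi⟩ y
    set q : ℝ := ∑ a, (F i x a - F i y a) ^ 2 with hq
    have hq0 : 0 ≤ q := Finset.sum_nonneg fun a _ => sq_nonneg _
    set δ : ℝ := ρ i y with hδ
    have hδ0 : 0 ≤ δ := hρ0 i y
    have h1 : q ≤ ∑ i, ∑ a, (F i x a - F i y a) ^ 2 :=
      Finset.single_le_sum (f := fun i => ∑ a, (F i x a - F i y a) ^ 2)
        (fun i _ => Finset.sum_nonneg fun a _ => sq_nonneg _) (Finset.mem_univ i)
    have h2 : δ ^ 2 ≤ ∑ i, (ρ i x - ρ i y) ^ 2 := by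
      have h3 : (ρ i x - ρ i y) ^ 2 ≤ ∑ i, (ρ i x - ρ i y) ^ 2 :=
        Finset.single_le_sum (f := fun i => (ρ i x - ρ i y) ^ 2) (fun i _ => sq_nonneg _)
          (Finset.mem_univ i)
      rw [hρ2 i x hi] at h3
      calc δ ^ 2 = (0 - ρ i y) ^ 2 := by rw [hδ]; ring
        _ ≤ _ := h3
    have htr := l2_tri (F i x) (F i y) (F i z)
    have h4 : dist x z ≤ D * Real.sqrt (∑ a, (F i x a - F i z a) ^ 2) := by
      have h := hF1 i x hi z hz
      have h' : dist x z ^ 2 ≤ (D * Real.sqrt (∑ a, (F i x a - F i z a) ^ 2)) ^ 2 := by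
        rw [mul_pow, Real.sq_sqrt (Finset.sum_nonneg fun a _ => sq_nonneg _)]; exact h
      exact (abs_le_of_sq_le_sq' h' (mul_nonneg hD0.le (Real.sqrt_nonneg _))).2
    have h5 : Real.sqrt (∑ a, (F i y a - F i z a) ^ 2) ≤ L * δ := by
      rw [Real.sqrt_le_left (by positivity), mul_pow, hL2]
      have := hF2 i y z
      rw [hyz] at this
      exact this
    have h6 : dist x y ≤ D * (Real.sqrt q + c * δ) := by
      have h7 : dist x y ≤ dist x z + dist y z := by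
        have := htri x z y
        rw [hds z y] at this
        exact this
      rw [hyz] at h7
      have h8 : D * Real.sqrt (∑ a, (F i x a - F i z a) ^ 2) ≤ D * (Real.sqrt q + L * δ) :=
        mul_le_mul_of_nonneg_left (by linarith) hD0.le
      have h9 : D * (Real.sqrt q + c * δ) = D * (Real.sqrt q + L * δ) + δ := by
        rw [hc]
        field_simp
        ring
      rw [h9]
      linarith
    have hc0 : 0 ≤ c := by rw [hc]; linarith
    have h10 : dist x y ^ 2 ≤ (D * (Real.sqrt q + c * δ)) ^ 2 := pow_le_pow_left₀ (hd0 x y) h6 2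
    have h11 : (Real.sqrt q + c * δ) ^ 2 ≤ 2 * (q + c ^ 2 * δ ^ 2) := by
      have := Real.sq_sqrt hq0
      nlinarith [sq_nonneg (Real.sqrt q - c * δ)]
    calc dist x y ^ 2 ≤ (D * (Real.sqrt q + c * δ)) ^ 2 := h10
      _ = D ^ 2 * (Real.sqrt q + c * δ) ^ 2 := by ring
      _ ≤ D ^ 2 * (2 * (q + c ^ 2 * δ ^ 2)) := mul_le_mul_of_nonneg_left h11 (by positivity)
      _ = 2 * D ^ 2 * (q + c ^ 2 * δ ^ 2) := by ring
      _ ≤ _ := by
        apply mul_le_mul_of_nonneg_left _ (by positivity)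
        have := mul_le_mul_of_nonneg_left h2 (sq_nonneg c)
        linarith
  · have h1 : ∑ i, ∑ a, (F i x a - F i y a) ^ 2 ≤ k * (M' * dist x y ^ 2) := by
      refine (Finset.sum_le_sum fun i _ => hF2 i x y).trans (le_of_eq ?_)
      rw [Finset.sum_const, Finset.card_univ, Fintype.card_fin, nsmul_eq_mul]
    have h2 : ∑ i, (ρ i x - ρ i y) ^ 2 ≤ k * dist x y ^ 2 := by
      refine (Finset.sum_le_sum fun i _ => hρ1 i x y).trans (le_of_eq ?_)
      rw [Finset.sum_const, Finset.card_univ, Fintype.card_fin, nsmul_eq_mul]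
    have h3 : c ^ 2 * ∑ i, (ρ i x - ρ i y) ^ 2 ≤ 4 * M' * (k * dist x y ^ 2) :=
      mul_le_mul hc2 h2 (Finset.sum_nonneg fun i _ => sq_nonneg _) (by linarith)
    calc 2 * D ^ 2 * (∑ i, ∑ a, (F i x a - F i y a) ^ 2 + c ^ 2 * ∑ i, (ρ i x - ρ i y) ^ 2)
        ≤ 2 * D ^ 2 * (k * (M' * dist x y ^ 2) + 4 * M' * (k * dist x y ^ 2)) :=
          mul_le_mul_of_nonneg_left (by linarith) (by positivity)
      _ = _ := by ring

end

end H799U
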