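import Mathlib

/-!
# Elimination of a finite set of nodes from a network (real-valued potentials)
-/

namespace H799U

open Finset BigOperators

section Green
variable {Y : Type*} [Fintype Y] [DecidableEq Y]

/-- grounded Laplacian -/
noncomputable def gl (W : Y → Y → ℝ) (m : Y → ℝ) : Matrix Y Y ℝ :=
  Matrix.of fun y z => (if y = z then m y + ∑ x, W y x else 0) - W y z

lemma gl_mulVec (W : Y → Y → ℝ) (m : Y → ℝ) (u : Y → ℝ) (y : Y) :
    (gl W m).mulVec u y = m y * u y + ∑ z, W y z * (u y - u z) := by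
  simp only [gl, Matrix.mulVec, dotProduct, Matrix.of_apply, sub_mul, ite_mul, zero_mul,
    Finset.sum_sub_distrib, Finset.sum_ite_eq, Finset.mem_univ, if_true, mul_sub]
  rw [← Finset.sum_mul]
  ring

lemma gl_det_ne (W : Y → Y → ℝ) (m : Y → ℝ) (hW : ∀ y z, 0 ≤ W y z) (hm : ∀ y, 0 < m y) :
    (gl W m).det ≠ 0 := by
  apply det_ne_zero_of_sum_row_lt_diag
  intro y
  have h1 : ∀ z ∈ Finset.univ.erase y, ‖gl W m y z‖ = W y z := by
    intro z hz
    have : y ≠ z := (Finset.ne_of_mem_erase hz).symm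
    simp [gl, this, abs_of_nonneg (hW y z)]
  rw [Finset.sum_congr rfl h1]
  have h2 : gl W m y y = m y + ∑ z ∈ Finset.univ.erase y, W y z := by
    simp only [gl, Matrix.of_apply, if_true]
    rw [← Finset.add_sum_erase Finset.univ (W y) (Finset.mem_univ y)]
    ring
  rw [h2, Real.norm_of_nonneg (add_nonneg (hm y).le (Finset.sum_nonneg fun z _ => hW y z))]
  linarith [hm y]

lemma gl_symm (W : Y → Y → ℝ) (m : Y → ℝ) (hs : ∀ y z, W y z = W z y) :
    (gl W m).transpose = gl W m := by
  ext y z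
  simp only [gl, Matrix.transpose_apply, Matrix.of_apply]
  rw [hs z y]
  by_cases h : y = z
  · subst h; rfl
  · rw [if_neg (Ne.symm h), if_neg h]

/-- discrete minimum principle -/
lemma gl_min (W : Y → Y → ℝ) (m : Y → ℝ) (hW : ∀ y z, 0 ≤ W y z) (hm : ∀ y, 0 < m y)
    (u : Y → ℝ) (hu : ∀ y, 0 ≤ (gl W m).mulVec u y) (y : Y) : 0 ≤ u y := by
  haveI : Nonempty Y := ⟨y⟩
  obtain ⟨y₀, hy₀⟩ := Finite.exists_min u
  by_contra hneg
  push Not at hneg
  have h0 : u y₀ < 0 := lt_of_le_of_lt (hy₀ y) hneg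
  have h1 := hu y₀
  rw [gl_mulVec] at h1
  have h2 : ∑ z, W y₀ z * (u y₀ - u z) ≤ 0 :=
    Finset.sum_nonpos fun z _ => mul_nonpos_of_nonneg_of_nonpos (hW _ _) (by linarith [hy₀ z])
  have h3 : m y₀ * u y₀ < 0 := mul_neg_of_pos_of_neg (hm _) h0
  linarith

/-- The Green kernel of the grounded network, packaged as a transfer kernel `K`. -/
theorem exists_transfer (W : Y → Y → ℝ) (m : Y → ℝ) (hW : ∀ y z, 0 ≤ W y z)
    (hs : ∀ y z, W y z = W z y) (hm : ∀ y, 0 < m y) :
    ∃ K : Y → Y → ℝ, (∀ y z, 0 ≤ K y z) ∧ (∀ y z, K y z = K z y) ∧ (∀ y, ∑ z, K y z = m y) ∧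
      (∀ φ : Y → ℝ, ∃ u : Y → ℝ,
        2 * ∑ y, m y * (φ y - u y) ^ 2 + ∑ y, ∑ z, W y z * (u y - u z) ^ 2
          = ∑ y, ∑ z, K y z * (φ y - φ z) ^ 2) ∧
      (∀ φ : Y → ℝ, ∑ y, ∑ z, K y z * (φ y - φ z) ^ 2 ≤ ∑ y, ∑ z, W y z * (φ y - φ z) ^ 2) := by
  classical
  set A := gl W m with hA
  have hdet : IsUnit A.det := (gl_det_ne W m hW hm).isUnit
  set G := A⁻¹ with hG
  have hAG : A * G = 1 := Matrix.mul_nonsing_inv A hdet
  have hGA : G * A = 1 := Matrix.nonsing_inv_mul A hdet
  have hGs : ∀ y z, G y z = G z y := by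
    intro y z
    have : G.transpose = G := by
      rw [hG, Matrix.transpose_nonsing_inv, gl_symm W m hs]
    have h := congrFun (congrFun this z) y
    rw [Matrix.transpose_apply] at h
    exact h
  have hGnn : ∀ y z, 0 ≤ G y z := by
    intro y z
    have := gl_min W m hW hm (fun x => G x z) (fun x => by
      have h1 : A.mulVec (fun x => G x z) x = (A * G) x z := by
        simp [Matrix.mulVec, dotProduct, Matrix.mul_apply]
      rw [← hA, h1, hAG]
      by_cases h : x = z
      · subst h; simp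
      · simp [h]) y
    exact this
  have hsolve : ∀ v : Y → ℝ, ∀ y, m y * (G.mulVec v y) + ∑ z, W y z * (G.mulVec v y - G.mulVec v z) = v y := by
    intro v y
    rw [← gl_mulVec, ← hA, Matrix.mulVec_mulVec, hAG, Matrix.one_mulVec]
  have hGm : ∀ y, ∑ z, G y z * m z = 1 := by
    intro y
    have h1 : A.mulVec (fun _ => (1 : ℝ)) = m := by
      funext x
      rw [hA, gl_mulVec]
      simp
    have h2 : G.mulVec m = fun _ => (1 : ℝ) := by
      rw [← h1, Matrix.mulVec_mulVec, hGA, Matrix.one_mulVec]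
    have h3 := congrFun h2 y
    simpa [Matrix.mulVec, dotProduct] using h3
  refine ⟨fun y z => m y * G y z * m z, fun y z => ?_, fun y z => ?_, fun y => ?_, ?_, ?_⟩
  · exact mul_nonneg (mul_nonneg (hm y).le (hGnn y z)) (hm z).le
  · change m y * G y z * m z = m z * G z y * m y
    rw [hGs y z]; ring
  · change ∑ z, m y * G y z * m z = m y
    simp_rw [mul_assoc]
    rw [← Finset.mul_sum, hGm y, mul_one]
  all_goals
    have key : ∀ φ : Y → ℝ, ∃ u : Y → ℝ,
        (∀ y, m y * (φ y - u y) = ∑ z, W y z * (u y - u z)) ∧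
        2 * ∑ y, m y * (φ y - u y) ^ 2 + ∑ y, ∑ z, W y z * (u y - u z) ^ 2
          = ∑ y, ∑ z, (m y * G y z * m z) * (φ y - φ z) ^ 2 := by
      intro φ
      set u : Y → ℝ := G.mulVec (fun z => m z * φ z) with hu
      have hstar : ∀ y, m y * (φ y - u y) = ∑ z, W y z * (u y - u z) := by
        intro y
        have h7 : m y * u y + ∑ z, W y z * (u y - u z) = m y * φ y :=
          hsolve (fun z => m z * φ z) y
        linarith
      refine ⟨u, hstar, ?_⟩
      have e1 : ∑ y, ∑ z, W y z * (u y - u z) ^ 2 = 2 * ∑ y, u y * (m y * (φ y - u y)) := by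
        have a1 : ∑ y, ∑ z, W y z * (u y - u z) ^ 2
            = ∑ y, ∑ z, W y z * (u y - u z) * u y - ∑ y, ∑ z, W y z * (u y - u z) * u z := by
          rw [← Finset.sum_sub_distrib]
          refine Finset.sum_congr rfl fun y _ => ?_
          rw [← Finset.sum_sub_distrib]
          refine Finset.sum_congr rfl fun z _ => ?_
          ring
        have a2 : ∑ y, ∑ z, W y z * (u y - u z) * u z
            = - ∑ y, ∑ z, W y z * (u y - u z) * u y := by
          rw [Finset.sum_comm, ← Finset.sum_neg_distrib]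
          refine Finset.sum_congr rfl fun y _ => ?_
          rw [← Finset.sum_neg_distrib]
          refine Finset.sum_congr rfl fun z _ => ?_
          rw [hs z y]; ring
        have a3 : ∑ y, ∑ z, W y z * (u y - u z) * u y = ∑ y, u y * (m y * (φ y - u y)) := by
          refine Finset.sum_congr rfl fun y _ => ?_
          rw [hstar y, Finset.mul_sum]
          refine Finset.sum_congr rfl fun z _ => ?_
          ring
        rw [a1, a2, a3]; ring
      have e2 : ∑ y, ∑ z, (m y * G y z * m z) * (φ y - φ z) ^ 2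
          = 2 * ∑ y, m y * φ y ^ 2 - 2 * ∑ y, m y * φ y * u y := by
        have b1 : ∀ y, u y = ∑ z, G y z * (m z * φ z) := by
          intro y; rw [hu]; simp [Matrix.mulVec, dotProduct]
        have b2 : ∑ y, ∑ z, (m y * G y z * m z) * (φ y - φ z) ^ 2
            = ∑ y, ∑ z, (m y * G y z * m z) * φ y ^ 2 + ∑ y, ∑ z, (m y * G y z * m z) * φ z ^ 2
              - 2 * ∑ y, ∑ z, (m y * G y z * m z) * (φ y * φ z) := by
          rw [Finset.mul_sum, ← Finset.sum_add_distrib, ← Finset.sum_sub_distrib]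
          refine Finset.sum_congr rfl fun y _ => ?_
          rw [Finset.mul_sum, ← Finset.sum_add_distrib, ← Finset.sum_sub_distrib]
          refine Finset.sum_congr rfl fun z _ => ?_
          ring
        have b3 : ∑ y, ∑ z, (m y * G y z * m z) * φ y ^ 2 = ∑ y, m y * φ y ^ 2 := by
          refine Finset.sum_congr rfl fun y _ => ?_
          have : ∑ z, (m y * G y z * m z) * φ y ^ 2 = (m y * φ y ^ 2) * ∑ z, G y z * m z := by
            rw [Finset.mul_sum]
            refine Finset.sum_congr rfl fun z _ => ?_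
            ring
          rw [this, hGm y, mul_one]
        have b4 : ∑ y, ∑ z, (m y * G y z * m z) * φ z ^ 2 = ∑ y, m y * φ y ^ 2 := by
          rw [Finset.sum_comm, ← b3]
          refine Finset.sum_congr rfl fun y _ => ?_
          refine Finset.sum_congr rfl fun z _ => ?_
          rw [hGs z y]; ring
        have b5 : ∑ y, ∑ z, (m y * G y z * m z) * (φ y * φ z) = ∑ y, m y * φ y * u y := by
          refine Finset.sum_congr rfl fun y _ => ?_
          rw [b1 y, Finset.mul_sum]
          refine Finset.sum_congr rfl fun z _ => ?_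
          ring
        rw [b2, b3, b4, b5]; ring
      rw [e1, e2]
      have e3 : ∑ y, m y * (φ y - u y) ^ 2 + ∑ y, u y * (m y * (φ y - u y))
          = ∑ y, m y * φ y ^ 2 - ∑ y, m y * φ y * u y := by
        rw [← Finset.sum_add_distrib, ← Finset.sum_sub_distrib]
        refine Finset.sum_congr rfl fun y _ => ?_
        ring
      linarith
  · intro φ
    obtain ⟨u, _, hu⟩ := key φ
    exact ⟨u, hu⟩
  · intro φ
    obtain ⟨u, hstar, hu⟩ := key φ
    rw [← hu]
    have c1 : ∑ y, ∑ z, W y z * (φ y - φ z) ^ 2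
        = ∑ y, ∑ z, W y z * (u y - u z) ^ 2
          + 2 * ∑ y, ∑ z, W y z * (u y - u z) * ((φ y - u y) - (φ z - u z))
          + ∑ y, ∑ z, W y z * ((φ y - u y) - (φ z - u z)) ^ 2 := by
      rw [Finset.mul_sum, ← Finset.sum_add_distrib, ← Finset.sum_add_distrib]
      refine Finset.sum_congr rfl fun y _ => ?_
      rw [Finset.mul_sum, ← Finset.sum_add_distrib, ← Finset.sum_add_distrib]
      refine Finset.sum_congr rfl fun z _ => ?_
      ring
    have c2 : ∑ y, ∑ z, W y z * (u y - u z) * ((φ y - u y) - (φ z - u z))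
        = 2 * ∑ y, m y * (φ y - u y) ^ 2 := by
      have a1 : ∑ y, ∑ z, W y z * (u y - u z) * ((φ y - u y) - (φ z - u z))
          = ∑ y, ∑ z, W y z * (u y - u z) * (φ y - u y)
            - ∑ y, ∑ z, W y z * (u y - u z) * (φ z - u z) := by
        rw [← Finset.sum_sub_distrib]
        refine Finset.sum_congr rfl fun y _ => ?_
        rw [← Finset.sum_sub_distrib]
        refine Finset.sum_congr rfl fun z _ => ?_
        ring
      have a2 : ∑ y, ∑ z, W y z * (u y - u z) * (φ z - u z)
          = - ∑ y, ∑ z, W y z * (u y - u z) * (φ y - u y) := by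
        rw [Finset.sum_comm, ← Finset.sum_neg_distrib]
        refine Finset.sum_congr rfl fun y _ => ?_
        rw [← Finset.sum_neg_distrib]
        refine Finset.sum_congr rfl fun z _ => ?_
        rw [hs z y]; ring
      have a3 : ∑ y, ∑ z, W y z * (u y - u z) * (φ y - u y) = ∑ y, m y * (φ y - u y) ^ 2 := by
        refine Finset.sum_congr rfl fun y _ => ?_
        have : m y * (φ y - u y) ^ 2 = (φ y - u y) * (m y * (φ y - u y)) := by ring
        rw [this, hstar y, Finset.mul_sum]
        refine Finset.sum_congr rfl fun z _ => ?_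
        ring
      rw [a1, a2, a3]; ring
    have c3 : 0 ≤ ∑ y, ∑ z, W y z * ((φ y - u y) - (φ z - u z)) ^ 2 :=
      Finset.sum_nonneg fun y _ => Finset.sum_nonneg fun z _ => mul_nonneg (hW y z) (sq_nonneg _)
    have c4 : 0 ≤ ∑ y, m y * (φ y - u y) ^ 2 :=
      Finset.sum_nonneg fun y _ => mul_nonneg (hm y).le (sq_nonneg _)
    rw [c1, c2]
    linarith

end Green

end H799U
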