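import Pool.Agent.Helper799.UnionK.Energy

/-!
# From weighted energy bounds to pointwise bounds (finite-dimensional Hahn–Banach)
-/

namespace H799U

open Finset BigOperators

section
variable {X : Type*} [DecidableEq X] [Fintype X]

/-- Version with prescribed boundary values. -/
theorem minimax2 {ι : Type} [Fintype ι] (A : Set X) (f₀ : X → ι → ℝ) (dist : X → X → ℝ)
    (hdsym : ∀ x y, dist x y = dist y x) (hdself : ∀ x, dist x x = 0)
    (hdpos : ∀ x y, x ≠ y → 0 < dist x y) (M M' : ℝ) (hM : 0 ≤ M) (hMM : M < M')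
    (hyp : ∀ w : X → X → ℝ, (∀ x y, 0 < w x y) → (∀ x y, w x y = w y x) →
      ∃ (F : X → ι → ℝ),
        (∀ x ∈ A, F x = f₀ x) ∧
        ∑ x, ∑ y, w x y * ∑ i, (F x i - F y i) ^ 2 ≤ M * ∑ x, ∑ y, w x y * dist x y ^ 2) :
    ∃ (F : X → ι → ℝ),
        (∀ x ∈ A, F x = f₀ x) ∧
        ∀ x y, ∑ i, (F x i - F y i) ^ 2 ≤ M' * dist x y ^ 2 := by
  classical
  have hM' : 0 < M' := lt_of_le_of_lt hM hMM
  set 𝒦 : Set (X × X → ℝ) := {q | ∃ (F : X → ι → ℝ),
    (∀ x y, ∑ i, (F x i - F y i) ^ 2 ≤ q (x, y)) ∧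
    (∀ x ∈ A, F x = f₀ x)} with h𝒦
  set τ : X × X → ℝ := fun p => M' * dist p.1 p.2 ^ 2 + (if p.1 = p.2 then 1 else 0) with hτ
  have hτpos : ∀ p, 0 < τ p := by
    intro p
    simp only [hτ]
    split_ifs with h
    · positivity
    · have := hdpos _ _ h
      positivity
  set 𝒪 : Set (X × X → ℝ) := {q | ∀ p, q p < τ p} with h𝒪
  by_cases hdis : Disjoint 𝒪 𝒦
  swap
  · rw [Set.not_disjoint_iff] at hdis
    obtain ⟨q, hq1, F, hF1, hF2⟩ := hdis
    refine ⟨F, hF2, fun x y => ?_⟩
    by_cases h : x = y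
    · subst h; simp [hdself]
    · have := hq1 (x, y)
      simp only [hτ, if_neg h, add_zero] at this
      exact (hF1 x y).trans this.le
  exfalso
  have hOconv : Convex ℝ 𝒪 := by
    intro q1 h1 q2 h2 a b ha hb hab p
    have e1 := h1 p
    have e2 := h2 p
    simp only [Pi.add_apply, Pi.smul_apply, smul_eq_mul]
    rcases eq_or_lt_of_le ha with h0 | h0
    · have : b = 1 := by linarith
      subst this
      rw [← h0]; linarith
    · have e3 := mul_lt_mul_of_pos_left e1 h0
      have e4 := mul_le_mul_of_nonneg_left e2.le hb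
      have e5 : a * τ p + b * τ p = τ p := by rw [← add_mul, hab, one_mul]
      linarith
  have hOopen : IsOpen 𝒪 := by
    rw [h𝒪, Set.setOf_forall]
    exact isOpen_iInter_of_finite fun p => isOpen_lt (continuous_apply p) continuous_const
  have hKconv : Convex ℝ 𝒦 := by
    rintro q1 ⟨F1, h11, h12⟩ q2 ⟨F2, h21, h22⟩ a b ha hb hab
    refine ⟨fun x i => a * F1 x i + b * F2 x i, ?_, ?_⟩
    · intro x y
      have h1 : ∑ i, ((a * F1 x i + b * F2 x i) - (a * F1 y i + b * F2 y i)) ^ 2
          ≤ a * ∑ i, (F1 x i - F1 y i) ^ 2 + b * ∑ i, (F2 x i - F2 y i) ^ 2 := by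
        rw [Finset.mul_sum, Finset.mul_sum, ← Finset.sum_add_distrib]
        refine Finset.sum_le_sum fun i _ => ?_
        have hb' : b = 1 - a := by linarith
        subst hb'
        nlinarith [mul_nonneg (mul_nonneg ha hb)
          (sq_nonneg ((F1 x i - F1 y i) - (F2 x i - F2 y i)))]
      refine h1.trans ?_
      simp only [Pi.add_apply, Pi.smul_apply, smul_eq_mul]
      exact add_le_add (mul_le_mul_of_nonneg_left (h11 x y) ha)
        (mul_le_mul_of_nonneg_left (h21 x y) hb)
    · intro x hx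
      funext i
      show a * F1 x i + b * F2 x i = f₀ x i
      rw [h12 x hx, h22 x hx, ← add_mul, hab, one_mul]
  obtain ⟨f, u, hfO, hfK⟩ := geometric_hahn_banach_open hOconv hOopen hKconv hdis
  set w : X × X → ℝ := fun p => f (fun j => if p = j then 1 else 0) with hw
  have hf : ∀ q : X × X → ℝ, f q = ∑ p, q p * w p := by
    intro q
    have := f.toLinearMap.pi_apply_eq_sum_univ q
    simpa [hw] using this
  have hτ1 : f (fun p => τ p - 1) < u := hfO _ (fun p => by simp)
  have hw0 : ∀ p, 0 ≤ w p := by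
    intro p₀
    by_contra hneg
    push Not at hneg
    set c := f (fun p => τ p - 1) with hc
    set t : ℝ := (u - c) / (- w p₀) with ht
    have ht0 : 0 ≤ t := div_nonneg (by linarith) (by linarith)
    have hmem : (fun p => τ p - 1 - (if p = p₀ then t else 0)) ∈ 𝒪 := by
      intro p
      simp only
      split_ifs <;> linarith
    have h1 := hfO _ hmem
    have h2 : f (fun p => τ p - 1 - (if p = p₀ then t else 0)) = c - t * w p₀ := by
      rw [hc, hf, hf]
      simp only [sub_mul, Finset.sum_sub_distrib, ite_mul, zero_mul, Finset.sum_ite_eq',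
        Finset.mem_univ, if_true]
    have h3 : t * w p₀ = -(u - c) := by
      rw [ht]
      have : w p₀ ≠ 0 := hneg.ne
      field_simp
    rw [h2, h3] at h1
    linarith
  have hτu : f τ ≤ u := by
    by_contra hgt
    push Not at hgt
    set W := ∑ p, w p with hWdef
    have hW0 : 0 ≤ W := Finset.sum_nonneg fun p _ => hw0 p
    set ε : ℝ := (f τ - u) / (W + 1) with hε
    have hε0 : 0 < ε := div_pos (by linarith) (by linarith)
    have h1 := hfO (fun p => τ p - ε) (fun p => by
      change τ p - ε < τ p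
      linarith)
    have h2 : f (fun p => τ p - ε) = f τ - ε * W := by
      rw [hf, hf, hWdef, Finset.mul_sum, ← Finset.sum_sub_distrib]
      refine Finset.sum_congr rfl fun p _ => ?_
      ring
    have h3 : ε * (W + 1) = f τ - u := by
      rw [hε]; field_simp
    rw [h2] at h1
    nlinarith
  set E : ℝ := ∑ x, ∑ y, w (x, y) * dist x y ^ 2 with hEdef
  set S : ℝ := ∑ x : X, ∑ y : X, dist x y ^ 2 with hSdef
  set T : ℝ := ∑ x, w (x, x) with hTdef
  have hE0 : 0 ≤ E := Finset.sum_nonneg fun x _ => Finset.sum_nonneg fun y _ =>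
    mul_nonneg (hw0 _) (sq_nonneg _)
  have hS0 : 0 ≤ S := Finset.sum_nonneg fun x _ => Finset.sum_nonneg fun y _ => sq_nonneg _
  have hT0 : 0 ≤ T := Finset.sum_nonneg fun x _ => hw0 _
  have hfτ : f τ = M' * E + T := by
    rw [hf, Fintype.sum_prod_type, hEdef, hTdef, Finset.mul_sum, ← Finset.sum_add_distrib]
    refine Finset.sum_congr rfl fun x _ => ?_
    simp only [hτ, add_mul, Finset.sum_add_distrib, ite_mul, one_mul, zero_mul,
      Finset.sum_ite_eq, Finset.mem_univ, if_true]
    rw [Finset.mul_sum]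
    congr 1
    refine Finset.sum_congr rfl fun y _ => ?_
    ring
  have hmain : ∀ ε : ℝ, 0 < ε → (M' - M) * E + T ≤ ε * (M * S) := by
    intro ε hε
    obtain ⟨F, hF1, hF2⟩ := hyp (fun x y => (w (x, y) + w (y, x)) / 2 + ε)
      (fun x y => by have := hw0 (x, y); have := hw0 (y, x); positivity)
      (fun x y => by rw [add_comm (w (x, y))])
    have hmem : (fun p : X × X => ∑ i, (F p.1 i - F p.2 i) ^ 2) ∈ 𝒦 :=
      ⟨F, fun x y => le_rfl, hF1⟩
    have h1 := hfK _ hmem
    rw [hf, Fintype.sum_prod_type] at h1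
    have hsymm : ∀ G : X → X → ℝ, (∀ x y, G x y = G y x) →
        ∑ x, ∑ y, ((w (x, y) + w (y, x)) / 2 + ε) * G x y
          = ∑ x, ∑ y, w (x, y) * G x y + ε * ∑ x, ∑ y, G x y := by
      intro G hG
      have a1 : ∑ x, ∑ y, ((w (x, y) + w (y, x)) / 2 + ε) * G x y
          = (∑ x, ∑ y, w (x, y) * G x y + ∑ x, ∑ y, w (y, x) * G x y) / 2
            + ε * ∑ x, ∑ y, G x y := by
        rw [← Finset.sum_add_distrib, Finset.sum_div, Finset.mul_sum, ← Finset.sum_add_distrib]
        refine Finset.sum_congr rfl fun x _ => ?_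
        rw [← Finset.sum_add_distrib, Finset.sum_div, Finset.mul_sum, ← Finset.sum_add_distrib]
        refine Finset.sum_congr rfl fun y _ => ?_
        ring
      have a2 : ∑ x, ∑ y, w (y, x) * G x y = ∑ x, ∑ y, w (x, y) * G x y := by
        rw [Finset.sum_comm]
        refine Finset.sum_congr rfl fun x _ => Finset.sum_congr rfl fun y _ => ?_
        rw [hG]
      rw [a1, a2]; ring
    rw [hsymm (fun x y => ∑ i, (F x i - F y i) ^ 2)
      (fun x y => Finset.sum_congr rfl fun i _ => by ring),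
      hsymm (fun x y => dist x y ^ 2) (fun x y => by rw [hdsym])] at hF2
    have h2 : ∑ x, ∑ y, (∑ i, (F x i - F y i) ^ 2) * w (x, y)
        = ∑ x, ∑ y, w (x, y) * ∑ i, (F x i - F y i) ^ 2 :=
      Finset.sum_congr rfl fun x _ => Finset.sum_congr rfl fun y _ => mul_comm _ _
    have h3 : 0 ≤ ε * ∑ x, ∑ y, ∑ i, (F x i - F y i) ^ 2 :=
      mul_nonneg hε.le (Finset.sum_nonneg fun x _ => Finset.sum_nonneg fun y _ =>
        Finset.sum_nonneg fun i _ => sq_nonneg _)
    have h4 : u ≤ ∑ x, ∑ y, w (x, y) * ∑ i, (F x i - F y i) ^ 2 := by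
      rw [← h2]; exact h1
    have h5 : M' * E + T ≤ M * (E + ε * S) := by
      rw [← hfτ]
      exact hτu.trans (h4.trans (by linarith))
    nlinarith
  have hle : (M' - M) * E + T ≤ 0 := by
    by_contra hgt
    push Not at hgt
    set v := (M' - M) * E + T with hv
    have hMS : 0 ≤ M * S := mul_nonneg hM hS0
    have h1 := hmain (v / (2 * (M * S + 1))) (by positivity)
    have h2 : v / (2 * (M * S + 1)) * (M * S) ≤ v / 2 := by
      rw [div_mul_eq_mul_div, div_le_div_iff₀ (by positivity) (by positivity)]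
      nlinarith
    linarith
  have hE : E = 0 := by nlinarith [mul_nonneg (sub_pos.mpr hMM).le hE0]
  have hT : T = 0 := by nlinarith [mul_nonneg (sub_pos.mpr hMM).le hE0]
  have hwz : ∀ p, w p = 0 := by
    rintro ⟨x, y⟩
    by_cases h : x = y
    · subst h
      exact (Finset.sum_eq_zero_iff_of_nonneg (fun x _ => hw0 (x, x))).mp hT x (Finset.mem_univ _)
    · have h1 := (Finset.sum_eq_zero_iff_of_nonneg (fun x _ => Finset.sum_nonneg fun y _ =>
        mul_nonneg (hw0 (x, y)) (sq_nonneg (dist x y)))).mp hE x (Finset.mem_univ _)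
      have h2 := (Finset.sum_eq_zero_iff_of_nonneg (fun y _ =>
        mul_nonneg (hw0 (x, y)) (sq_nonneg (dist x y)))).mp h1 y (Finset.mem_univ _)
      rcases mul_eq_zero.mp h2 with h3 | h3
      · exact h3
      · exact absurd h3 (pow_ne_zero 2 (hdpos x y h).ne')
  have hfz : ∀ q, f q = 0 := by
    intro q
    rw [hf]
    exact Finset.sum_eq_zero fun p _ => by rw [hwz p, mul_zero]
  obtain ⟨F, hF1, _⟩ := hyp (fun _ _ => 1) (fun _ _ => one_pos) (fun _ _ => rfl)
  have hmem : (fun p : X × X => ∑ i, (F p.1 i - F p.2 i) ^ 2) ∈ 𝒦 :=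
    ⟨F, fun x y => le_rfl, hF1⟩
  have h1 := hfK _ hmem
  rw [hfz] at h1
  rw [hfz] at hτ1
  linarith

end

end H799U
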