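import Pool.Agent.Helper799.UnionK.Green

/-!
# Trace of a network on the complement of a finite set
-/

namespace H799U

open Finset BigOperators

section
variable {X : Type*} [DecidableEq X]

theorem exists_transfer_finset (Y : Finset X) (W : X → X → ℝ) (m : X → ℝ)
    (hW : ∀ y z, 0 ≤ W y z) (hs : ∀ y z, W y z = W z y) (hm : ∀ y ∈ Y, 0 < m y) :
    ∃ K : X → X → ℝ, (∀ y z, 0 ≤ K y z) ∧ (∀ y z, K y z = K z y) ∧
      (∀ y ∈ Y, ∑ z ∈ Y, K y z = m y) ∧
      (∀ φ : X → ℝ, ∃ u : X → ℝ,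
        2 * ∑ y ∈ Y, m y * (φ y - u y) ^ 2 + ∑ y ∈ Y, ∑ z ∈ Y, W y z * (u y - u z) ^ 2
          = ∑ y ∈ Y, ∑ z ∈ Y, K y z * (φ y - φ z) ^ 2) ∧
      (∀ φ : X → ℝ, ∑ y ∈ Y, ∑ z ∈ Y, K y z * (φ y - φ z) ^ 2
          ≤ ∑ y ∈ Y, ∑ z ∈ Y, W y z * (φ y - φ z) ^ 2) := by
  classical
  obtain ⟨K, hK0, hKs, hKm, hKu, hKle⟩ := exists_transfer (Y := {x // x ∈ Y})
    (fun y z => W y.1 z.1) (fun y => m y.1) (fun y z => hW _ _) (fun y z => hs _ _)
    (fun y => hm y.1 y.2)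
  have key : ∀ y z : {x // x ∈ Y},
      (if h : (y : X) ∈ Y ∧ (z : X) ∈ Y then K ⟨y, h.1⟩ ⟨z, h.2⟩ else 0) = K y z := by
    intro y z
    rw [dif_pos ⟨y.2, z.2⟩]
  have dbl : ∀ F : X → X → ℝ, ∑ y ∈ Y, ∑ z ∈ Y, F y z
      = ∑ y : {x // x ∈ Y}, ∑ z : {x // x ∈ Y}, F y z := by
    intro F
    rw [← Finset.sum_coe_sort Y]
    refine Finset.sum_congr rfl fun y _ => ?_
    rw [← Finset.sum_coe_sort Y]
  refine ⟨fun y z => if h : y ∈ Y ∧ z ∈ Y then K ⟨y, h.1⟩ ⟨z, h.2⟩ else 0, ?_, ?_, ?_, ?_, ?_⟩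
  · intro y z
    change 0 ≤ if h : y ∈ Y ∧ z ∈ Y then K ⟨y, h.1⟩ ⟨z, h.2⟩ else 0
    split_ifs with h
    · exact hK0 _ _
    · exact le_refl _
  · intro y z
    change (if h : y ∈ Y ∧ z ∈ Y then K ⟨y, h.1⟩ ⟨z, h.2⟩ else 0)
      = if h : z ∈ Y ∧ y ∈ Y then K ⟨z, h.1⟩ ⟨y, h.2⟩ else 0
    by_cases h : y ∈ Y ∧ z ∈ Y
    · rw [dif_pos h, dif_pos ⟨h.2, h.1⟩]
      exact hKs _ _
    · rw [dif_neg h, dif_neg (fun h' => h ⟨h'.2, h'.1⟩)]
  · intro y hy
    rw [← Finset.sum_coe_sort Y]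
    have := hKm ⟨y, hy⟩
    simp only at this
    rw [← this]
    refine Finset.sum_congr rfl fun z _ => ?_
    exact key ⟨y, hy⟩ z
  · intro φ
    obtain ⟨u, hu⟩ := hKu (fun y => φ y.1)
    refine ⟨fun x => if h : x ∈ Y then u ⟨x, h⟩ else 0, ?_⟩
    have hux : ∀ y : {x // x ∈ Y}, (if h : (y : X) ∈ Y then u ⟨y, h⟩ else 0) = u y := by
      intro y; rw [dif_pos y.2]
    rw [dbl, dbl, ← Finset.sum_coe_sort Y]
    simp only [hux, key]
    exact hu
  · intro φ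
    rw [dbl, dbl]
    simp only [key]
    exact hKle (fun y => φ y.1)

lemma scalar_ineq (D x y z : ℝ) :
    (x + y + D * z) ^ 2 ≤ (1 + (D ^ 2 + 3) / 2) * (x ^ 2 + y ^ 2) + (1 + (D ^ 2 + 3)) * z ^ 2 := by
  nlinarith [sq_nonneg (x - y), sq_nonneg (D * (x + y) / 2 - 2 * z), sq_nonneg (x + y),
    sq_nonneg (D * (x - y))]

/-- Trace of a positive network on `S ∪ Y` to `S`. -/
theorem exists_trace (S Y : Finset X) (hd : Disjoint S Y) (hS : S.Nonempty)
    (w : X → X → ℝ) (hpos : ∀ x y, 0 < w x y) (hsym : ∀ x y, w x y = w y x) :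
    ∃ w' : X → X → ℝ, (∀ x y, 0 < w' x y) ∧ (∀ x y, w' x y = w' y x) ∧
      (∀ φ : X → ℝ, ∃ ψ : X → ℝ, (∀ x, x ∉ Y → ψ x = φ x) ∧
        ∑ x ∈ S ∪ Y, ∑ y ∈ S ∪ Y, w x y * (ψ x - ψ y) ^ 2
          ≤ ∑ x ∈ S, ∑ y ∈ S, w' x y * (φ x - φ y) ^ 2) ∧
      (∀ (dist : X → X → ℝ) (ι : Type) (_ : Fintype ι) (g : X → ι → ℝ) (D : ℝ),
        (∀ x y, dist x y = dist y x) → (∀ x y, 0 ≤ dist x y) →
        (∀ x y z, dist x z ≤ dist x y + dist y z) → 0 ≤ D →
        (∀ y ∈ Y, ∀ z ∈ Y, ∑ i, (g y i - g z i) ^ 2 ≤ dist y z ^ 2) →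
        (∀ y ∈ Y, ∀ z ∈ Y, dist y z ^ 2 ≤ D ^ 2 * ∑ i, (g y i - g z i) ^ 2) →
        ∑ x ∈ S, ∑ y ∈ S, w' x y * dist x y ^ 2
          ≤ ∑ x ∈ S ∪ Y, ∑ y ∈ S ∪ Y, w x y * dist x y ^ 2
            + (D ^ 2 + 3) * ∑ x ∈ S ∪ Y, ∑ y ∈ Y, w x y * dist x y ^ 2) := by
  classical
  set m : X → ℝ := fun y => ∑ a ∈ S, w a y with hmdef
  have hm : ∀ y, 0 < m y := fun y => Finset.sum_pos (fun a _ => hpos a y) hS
  obtain ⟨K, hK0, hKs, hKm, hKu, hKle⟩ := exists_transfer_finset Y w m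
    (fun y z => (hpos y z).le) hsym (fun y _ => hm y)
  set α : X → X → ℝ := fun a y => w a y / m y with hα
  have hα0 : ∀ a y, 0 ≤ α a y := fun a y => div_nonneg (hpos _ _).le (hm y).le
  have hα1 : ∀ y, ∑ a ∈ S, α a y = 1 := by
    intro y
    rw [hα]
    simp only
    rw [← Finset.sum_div]
    exact div_self (hm y).ne'
  have hmα : ∀ a y, m y * α a y = w a y := by
    intro a y
    rw [hα]
    simp only
    field_simp [(hm y).ne']
  -- the union decomposition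
  have hunion : ∀ δ : X → X → ℝ, (∀ x y, δ x y = δ y x) →
      ∑ x ∈ S ∪ Y, ∑ y ∈ S ∪ Y, w x y * δ x y
        = ∑ x ∈ S, ∑ y ∈ S, w x y * δ x y + 2 * ∑ y ∈ Y, ∑ a ∈ S, w a y * δ a y
          + ∑ x ∈ Y, ∑ y ∈ Y, w x y * δ x y := by
    intro δ hδ
    rw [Finset.sum_union hd]
    simp_rw [Finset.sum_union hd]
    rw [Finset.sum_add_distrib, Finset.sum_add_distrib]
    have h1 : ∑ x ∈ S, ∑ y ∈ Y, w x y * δ x y = ∑ y ∈ Y, ∑ a ∈ S, w a y * δ a y :=
      Finset.sum_comm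
    have h2 : ∑ x ∈ Y, ∑ y ∈ S, w x y * δ x y = ∑ y ∈ Y, ∑ a ∈ S, w a y * δ a y := by
      refine Finset.sum_congr rfl fun x _ => Finset.sum_congr rfl fun y _ => ?_
      rw [hsym, hδ]
    rw [h1, h2]; ring
  -- energy of the trace
  have htrace : ∀ δ : X → X → ℝ,
      ∑ a ∈ S, ∑ b ∈ S, (w a b + ∑ y ∈ Y, ∑ z ∈ Y, α a y * K y z * α b z) * δ a b
        = ∑ a ∈ S, ∑ b ∈ S, w a b * δ a b
          + ∑ y ∈ Y, ∑ z ∈ Y, K y z * ∑ a ∈ S, ∑ b ∈ S, α a y * α b z * δ a b := by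
    intro δ
    simp_rw [add_mul, Finset.sum_add_distrib]
    congr 1
    have e1 : ∀ a b, (∑ y ∈ Y, ∑ z ∈ Y, α a y * K y z * α b z) * δ a b
        = ∑ y ∈ Y, ∑ z ∈ Y, K y z * (α a y * α b z * δ a b) := by
      intro a b
      rw [Finset.sum_mul]
      refine Finset.sum_congr rfl fun y _ => ?_
      rw [Finset.sum_mul]
      refine Finset.sum_congr rfl fun z _ => ?_
      ring
    simp_rw [e1, Finset.mul_sum]
    -- swap sums
    calc ∑ a ∈ S, ∑ b ∈ S, ∑ y ∈ Y, ∑ z ∈ Y, K y z * (α a y * α b z * δ a b)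
        = ∑ a ∈ S, ∑ y ∈ Y, ∑ b ∈ S, ∑ z ∈ Y, K y z * (α a y * α b z * δ a b) := by
          refine Finset.sum_congr rfl fun a _ => ?_
          rw [Finset.sum_comm]
      _ = ∑ y ∈ Y, ∑ a ∈ S, ∑ b ∈ S, ∑ z ∈ Y, K y z * (α a y * α b z * δ a b) := by
          rw [Finset.sum_comm]
      _ = ∑ y ∈ Y, ∑ a ∈ S, ∑ z ∈ Y, ∑ b ∈ S, K y z * (α a y * α b z * δ a b) := by
          refine Finset.sum_congr rfl fun y _ => Finset.sum_congr rfl fun a _ => ?_
          rw [Finset.sum_comm]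
      _ = ∑ y ∈ Y, ∑ z ∈ Y, ∑ a ∈ S, ∑ b ∈ S, K y z * (α a y * α b z * δ a b) := by
          refine Finset.sum_congr rfl fun y _ => ?_
          rw [Finset.sum_comm]
  have hKsum : ∀ V : X → ℝ, ∑ y ∈ Y, ∑ z ∈ Y, K y z * V y = ∑ y ∈ Y, m y * V y := by
    intro V
    refine Finset.sum_congr rfl fun y hy => ?_
    rw [← Finset.sum_mul, hKm y hy]
  have hKsum' : ∀ V : X → ℝ, ∑ y ∈ Y, ∑ z ∈ Y, K y z * V z = ∑ y ∈ Y, m y * V y := by
    intro V
    rw [Finset.sum_comm, ← hKsum V]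
    refine Finset.sum_congr rfl fun y _ => Finset.sum_congr rfl fun z _ => ?_
    rw [hKs]
  refine ⟨fun a b => w a b + ∑ y ∈ Y, ∑ z ∈ Y, α a y * K y z * α b z, ?_, ?_, ?_, ?_⟩
  · intro a b
    have : 0 ≤ ∑ y ∈ Y, ∑ z ∈ Y, α a y * K y z * α b z :=
      Finset.sum_nonneg fun y _ => Finset.sum_nonneg fun z _ =>
        mul_nonneg (mul_nonneg (hα0 _ _) (hK0 _ _)) (hα0 _ _)
    have h2 := hpos a b
    change 0 < w a b + ∑ y ∈ Y, ∑ z ∈ Y, α a y * K y z * α b z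
    linarith
  · intro a b
    change w a b + ∑ y ∈ Y, ∑ z ∈ Y, α a y * K y z * α b z
      = w b a + ∑ y ∈ Y, ∑ z ∈ Y, α b y * K y z * α a z
    rw [hsym a b, Finset.sum_comm]
    congr 1
    refine Finset.sum_congr rfl fun y _ => Finset.sum_congr rfl fun z _ => ?_
    rw [hKs z y]; ring
  · intro φ
    set φb : X → ℝ := fun y => ∑ a ∈ S, α a y * φ a with hφb
    obtain ⟨u, hu⟩ := hKu φb
    refine ⟨fun x => if x ∈ Y then u x else φ x, fun x hx => if_neg hx, ?_⟩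
    rw [hunion (fun x y => ((if x ∈ Y then u x else φ x) - (if y ∈ Y then u y else φ y)) ^ 2)
      (fun x y => by ring)]
    have g1 : ∑ x ∈ S, ∑ y ∈ S,
        w x y * ((if x ∈ Y then u x else φ x) - (if y ∈ Y then u y else φ y)) ^ 2
        = ∑ x ∈ S, ∑ y ∈ S, w x y * (φ x - φ y) ^ 2 := by
      refine Finset.sum_congr rfl fun x hx => Finset.sum_congr rfl fun y hy => ?_
      rw [if_neg (Finset.disjoint_left.mp hd hx), if_neg (Finset.disjoint_left.mp hd hy)]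
    have g2 : ∑ y ∈ Y, ∑ a ∈ S,
        w a y * ((if a ∈ Y then u a else φ a) - (if y ∈ Y then u y else φ y)) ^ 2
        = ∑ y ∈ Y, ∑ a ∈ S, w a y * (φ a - u y) ^ 2 := by
      refine Finset.sum_congr rfl fun y hy => Finset.sum_congr rfl fun a ha => ?_
      rw [if_neg (Finset.disjoint_left.mp hd ha), if_pos hy]
    have g3 : ∑ x ∈ Y, ∑ y ∈ Y,
        w x y * ((if x ∈ Y then u x else φ x) - (if y ∈ Y then u y else φ y)) ^ 2
        = ∑ x ∈ Y, ∑ y ∈ Y, w x y * (u x - u y) ^ 2 := by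
      refine Finset.sum_congr rfl fun x hx => Finset.sum_congr rfl fun y hy => ?_
      rw [if_pos hx, if_pos hy]
    rw [g1, g2, g3]
    have h3 := htrace (fun a b => (φ a - φ b) ^ 2)
    rw [h3, add_assoc]
    refine add_le_add le_rfl (le_of_eq ?_)
    set Var : X → ℝ := fun y => ∑ a ∈ S, α a y * (φ a - φb y) ^ 2 with hVar
    have havg : ∀ y, ∑ a ∈ S, α a y * (φ a - φb y) = 0 := by
      intro y
      simp_rw [mul_sub, Finset.sum_sub_distrib]
      rw [← Finset.sum_mul, hα1 y, one_mul]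
      simp [hφb]
    have hcore : ∀ y z, ∑ a ∈ S, ∑ b ∈ S, α a y * α b z * (φ a - φ b) ^ 2
        = Var y + Var z + (φb y - φb z) ^ 2 := by
      intro y z
      have e1 : ∀ a, ∑ b ∈ S, α a y * α b z * (φ a - φ b) ^ 2
          = α a y * (φ a - φb z) ^ 2 + α a y * Var z := by
        intro a
        have e2 : ∀ b, α a y * α b z * (φ a - φ b) ^ 2
            = α a y * (φ a - φb z) ^ 2 * α b z
              - 2 * α a y * (φ a - φb z) * (α b z * (φ b - φb z))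
              + α a y * (α b z * (φ b - φb z) ^ 2) := by
          intro b; ring
        simp_rw [e2]
        rw [Finset.sum_add_distrib, Finset.sum_sub_distrib, ← Finset.mul_sum, ← Finset.mul_sum,
          ← Finset.mul_sum, hα1 z, havg z]
        simp [hVar]
      simp_rw [e1]
      rw [Finset.sum_add_distrib, ← Finset.sum_mul, hα1 y, one_mul]
      have e3 : ∀ a, α a y * (φ a - φb z) ^ 2
          = α a y * (φ a - φb y) ^ 2 + 2 * (φb y - φb z) * (α a y * (φ a - φb y))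
            + (φb y - φb z) ^ 2 * α a y := by
        intro a; ring
      simp_rw [e3]
      rw [Finset.sum_add_distrib, Finset.sum_add_distrib, ← Finset.mul_sum, ← Finset.mul_sum,
        hα1 y, havg y]
      simp only [hVar]
      ring
    simp_rw [hcore, mul_add, Finset.sum_add_distrib]
    rw [hKsum Var, hKsum' Var, ← hu]
    have e5 : ∑ y ∈ Y, ∑ a ∈ S, w a y * (φ a - u y) ^ 2
        = ∑ y ∈ Y, m y * Var y + ∑ y ∈ Y, m y * (φb y - u y) ^ 2 := by
      rw [← Finset.sum_add_distrib]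
      refine Finset.sum_congr rfl fun y _ => ?_
      have e6 : ∀ a, w a y * (φ a - u y) ^ 2 = m y * (α a y * (φ a - φb y) ^ 2)
          + 2 * m y * (φb y - u y) * (α a y * (φ a - φb y))
          + m y * (φb y - u y) ^ 2 * α a y := by
        intro a
        rw [← hmα a y]; ring
      simp_rw [e6]
      rw [Finset.sum_add_distrib, Finset.sum_add_distrib, ← Finset.mul_sum, ← Finset.mul_sum,
        ← Finset.mul_sum, hα1 y, havg y]
      simp only [hVar]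
      ring
    rw [e5]
    ring
  · intro dist ι _ g D hds hd0 htri hD hg1 hg2
    rw [hunion (fun x y => dist x y ^ 2) (fun x y => by rw [hds x y])]
    have h3 := htrace (fun a b => dist a b ^ 2)
    rw [h3]
    set V : X → ℝ := fun y => ∑ a ∈ S, α a y * dist a y ^ 2 with hV
    set ζ : X → X → ℝ := fun y z => ∑ i, (g y i - g z i) ^ 2 with hζ
    have hζ0 : ∀ y z, 0 ≤ ζ y z := fun y z => Finset.sum_nonneg fun i _ => sq_nonneg _
    have hcore : ∀ y ∈ Y, ∀ z ∈ Y, ∑ a ∈ S, ∑ b ∈ S, α a y * α b z * dist a b ^ 2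
        ≤ (1 + (D ^ 2 + 3) / 2) * V y + (1 + (D ^ 2 + 3) / 2) * V z
          + (1 + (D ^ 2 + 3)) * ζ y z := by
      intro y hy z hz
      have hyz : dist y z ≤ D * Real.sqrt (ζ y z) := by
        have h := hg2 y hy z hz
        have h' : dist y z ^ 2 ≤ (D * Real.sqrt (ζ y z)) ^ 2 := by
          rw [mul_pow, Real.sq_sqrt (hζ0 y z)]; exact h
        exact (abs_le_of_sq_le_sq' h' (mul_nonneg hD (Real.sqrt_nonneg _))).2
      have e1 : ∀ a b, α a y * α b z * dist a b ^ 2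
          ≤ (1 + (D ^ 2 + 3) / 2) * (α b z * (α a y * dist a y ^ 2))
            + (1 + (D ^ 2 + 3) / 2) * (α a y * (α b z * dist b z ^ 2))
            + (1 + (D ^ 2 + 3)) * ζ y z * (α a y * α b z) := by
        intro a b
        have h1 : dist a b ≤ dist a y + dist b z + D * Real.sqrt (ζ y z) := by
          have t1 := htri a y b
          have t2 := htri y z b
          rw [hds z b] at t2
          linarith
        have h2 : dist a b ^ 2 ≤ (dist a y + dist b z + D * Real.sqrt (ζ y z)) ^ 2 :=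
          pow_le_pow_left₀ (hd0 a b) h1 2
        have h4 := scalar_ineq D (dist a y) (dist b z) (Real.sqrt (ζ y z))
        rw [Real.sq_sqrt (hζ0 y z)] at h4
        have h5 : dist a b ^ 2 ≤ (1 + (D ^ 2 + 3) / 2) * (dist a y ^ 2 + dist b z ^ 2)
            + (1 + (D ^ 2 + 3)) * ζ y z := h2.trans h4
        have h6 := mul_le_mul_of_nonneg_left h5 (mul_nonneg (hα0 a y) (hα0 b z))
        refine h6.trans (le_of_eq ?_)
        ring
      have e2 : ∀ a, ∑ b ∈ S, α a y * α b z * dist a b ^ 2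
          ≤ (1 + (D ^ 2 + 3) / 2) * (α a y * dist a y ^ 2)
            + (1 + (D ^ 2 + 3) / 2) * (α a y * V z)
            + (1 + (D ^ 2 + 3)) * ζ y z * α a y := by
        intro a
        refine (Finset.sum_le_sum fun b _ => e1 a b).trans (le_of_eq ?_)
        rw [Finset.sum_add_distrib, Finset.sum_add_distrib, ← Finset.mul_sum, ← Finset.mul_sum,
          ← Finset.mul_sum, ← Finset.sum_mul, ← Finset.mul_sum, ← Finset.mul_sum, hα1 z]
        simp only [hV]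
        ring
      refine (Finset.sum_le_sum fun a _ => e2 a).trans (le_of_eq ?_)
      rw [Finset.sum_add_distrib, Finset.sum_add_distrib, ← Finset.mul_sum, ← Finset.mul_sum,
        ← Finset.mul_sum, ← Finset.sum_mul, hα1 y]
      simp only [hV]
      ring
    have hKζ : ∑ y ∈ Y, ∑ z ∈ Y, K y z * ζ y z ≤ ∑ y ∈ Y, ∑ z ∈ Y, w y z * dist y z ^ 2 := by
      have f1 : ∀ M : X → X → ℝ, ∑ y ∈ Y, ∑ z ∈ Y, M y z * ζ y z
          = ∑ i, ∑ y ∈ Y, ∑ z ∈ Y, M y z * (g y i - g z i) ^ 2 := by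
        intro M
        calc ∑ y ∈ Y, ∑ z ∈ Y, M y z * ζ y z
            = ∑ y ∈ Y, ∑ z ∈ Y, ∑ i, M y z * (g y i - g z i) ^ 2 := by
              refine Finset.sum_congr rfl fun y _ => Finset.sum_congr rfl fun z _ => ?_
              simp only [hζ]
              rw [Finset.mul_sum]
          _ = ∑ y ∈ Y, ∑ i, ∑ z ∈ Y, M y z * (g y i - g z i) ^ 2 := by
              refine Finset.sum_congr rfl fun y _ => ?_
              rw [Finset.sum_comm]
          _ = ∑ i, ∑ y ∈ Y, ∑ z ∈ Y, M y z * (g y i - g z i) ^ 2 := by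
              rw [Finset.sum_comm]
      calc ∑ y ∈ Y, ∑ z ∈ Y, K y z * ζ y z
          = ∑ i, ∑ y ∈ Y, ∑ z ∈ Y, K y z * (g y i - g z i) ^ 2 := f1 K
        _ ≤ ∑ i, ∑ y ∈ Y, ∑ z ∈ Y, w y z * (g y i - g z i) ^ 2 :=
            Finset.sum_le_sum fun i _ => hKle (fun x => g x i)
        _ = ∑ y ∈ Y, ∑ z ∈ Y, w y z * ζ y z := (f1 w).symm
        _ ≤ _ := Finset.sum_le_sum fun y hy => Finset.sum_le_sum fun z hz =>
            mul_le_mul_of_nonneg_left (hg1 y hy z hz) (hpos y z).le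
    have hbig : ∑ y ∈ Y, ∑ z ∈ Y, K y z * ∑ a ∈ S, ∑ b ∈ S, α a y * α b z * dist a b ^ 2
        ≤ 2 * ((1 + (D ^ 2 + 3) / 2) * ∑ y ∈ Y, m y * V y)
          + (1 + (D ^ 2 + 3)) * ∑ y ∈ Y, ∑ z ∈ Y, w y z * dist y z ^ 2 := by
      calc ∑ y ∈ Y, ∑ z ∈ Y, K y z * ∑ a ∈ S, ∑ b ∈ S, α a y * α b z * dist a b ^ 2
          ≤ ∑ y ∈ Y, ∑ z ∈ Y, K y z * ((1 + (D ^ 2 + 3) / 2) * V y
              + (1 + (D ^ 2 + 3) / 2) * V z + (1 + (D ^ 2 + 3)) * ζ y z) :=
            Finset.sum_le_sum fun y hy => Finset.sum_le_sum fun z hz =>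
              mul_le_mul_of_nonneg_left (hcore y hy z hz) (hK0 y z)
        _ = (1 + (D ^ 2 + 3) / 2) * ∑ y ∈ Y, ∑ z ∈ Y, K y z * V y
            + (1 + (D ^ 2 + 3) / 2) * ∑ y ∈ Y, ∑ z ∈ Y, K y z * V z
            + (1 + (D ^ 2 + 3)) * ∑ y ∈ Y, ∑ z ∈ Y, K y z * ζ y z := by
            have hlin : ∀ (c : ℝ) (F : X → X → ℝ), c * ∑ y ∈ Y, ∑ z ∈ Y, K y z * F y z
                = ∑ y ∈ Y, ∑ z ∈ Y, c * (K y z * F y z) := by
              intro c F
              rw [Finset.mul_sum]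
              refine Finset.sum_congr rfl fun y _ => ?_
              rw [Finset.mul_sum]
            rw [hlin _ (fun y z => V y), hlin _ (fun y z => V z), hlin _ ζ,
              ← Finset.sum_add_distrib, ← Finset.sum_add_distrib]
            refine Finset.sum_congr rfl fun y _ => ?_
            rw [← Finset.sum_add_distrib, ← Finset.sum_add_distrib]
            refine Finset.sum_congr rfl fun z _ => ?_
            ring
        _ ≤ _ := by
            rw [hKsum V, hKsum' V]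
            have : (0 : ℝ) ≤ 1 + (D ^ 2 + 3) := by positivity
            have := mul_le_mul_of_nonneg_left hKζ this
            linarith
    have hmV : ∑ y ∈ Y, m y * V y = ∑ y ∈ Y, ∑ a ∈ S, w a y * dist a y ^ 2 := by
      refine Finset.sum_congr rfl fun y _ => ?_
      simp only [hV]
      rw [Finset.mul_sum]
      refine Finset.sum_congr rfl fun a _ => ?_
      rw [← mul_assoc, hmα]
    rw [hmV] at hbig
    have hlast : ∑ x ∈ S ∪ Y, ∑ y ∈ Y, w x y * dist x y ^ 2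
        = ∑ y ∈ Y, ∑ a ∈ S, w a y * dist a y ^ 2 + ∑ y ∈ Y, ∑ z ∈ Y, w y z * dist y z ^ 2 := by
      rw [Finset.sum_union hd]
      congr 1
      rw [Finset.sum_comm]
    rw [hlast]
    linarith

end

end H799U
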