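import Pool.Agent.Helper799.UnionK.FinEmb2

/-!
# The upper bound with exponent `2 * √(D ^ 2 + 4) - 3 / 2`
-/

namespace H799U

open scoped ENNReal BigOperators Topology
open Filter

universe u

lemma exists_coords {T : Type*} [Finite T] {H : Type*} [NormedAddCommGroup H]
    [InnerProductSpace ℝ H] (f : T → H) :
    ∃ (n : ℕ) (g : T → Fin n → ℝ), ∀ x y, ∑ i, (g x i - g y i) ^ 2 = ‖f x - f y‖ ^ 2 := by
  classical
  set V : Submodule ℝ H := Submodule.span ℝ (Set.range f) with hV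
  haveI : FiniteDimensional ℝ V := FiniteDimensional.span_of_finite ℝ (Set.finite_range f)
  have hmem : ∀ x, f x ∈ V := fun x => Submodule.subset_span ⟨x, rfl⟩
  set b := stdOrthonormalBasis ℝ V with hb
  refine ⟨_, fun x i => b.repr ⟨f x, hmem x⟩ i, fun x y => ?_⟩
  have h1 : ‖b.repr (⟨f x, hmem x⟩ - ⟨f y, hmem y⟩)‖ ^ 2 = ‖f x - f y‖ ^ 2 := by
    rw [LinearIsometryEquiv.norm_map]
    rfl
  rw [← h1, EuclideanSpace.norm_sq_eq]
  refine Finset.sum_congr rfl fun i _ => ?_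
  rw [map_sub]
  simp [Real.norm_eq_abs, sq_abs]

lemma gr2_le {lam : ℝ} (hl : 3 / 2 ≤ lam) (n : ℕ) :
    gr2 lam n ≤ ((n : ℝ) + 1) ^ (2 * (lam - 1)) := by
  induction n with
  | zero => simp [gr2]
  | succ n ih =>
    have hn : (0 : ℝ) < (n : ℝ) + 1 := by positivity
    have h1 : 1 + 2 * (lam - 1) / ((n : ℝ) + 1) ≤ (1 + 1 / ((n : ℝ) + 1)) ^ (2 * (lam - 1)) := by
      have := one_add_mul_self_le_rpow_one_add (s := 1 / ((n : ℝ) + 1))
        (by have : (0 : ℝ) < 1 / ((n : ℝ) + 1) := by positivity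
            linarith) (p := 2 * (lam - 1)) (by linarith)
      rw [mul_one_div] at this
      exact this
    have hg0 : 0 ≤ gr2 lam n := by linarith [gr2_ge_one (lam := lam) (by linarith) n]
    rw [gr2_succ]
    calc gr2 lam n * (1 + 2 * (lam - 1) / ((n : ℝ) + 1))
        ≤ ((n : ℝ) + 1) ^ (2 * (lam - 1)) * (1 + 1 / ((n : ℝ) + 1)) ^ (2 * (lam - 1)) :=
          mul_le_mul ih h1 (by
            have : 0 ≤ lam - 1 := by linarith
            positivity) (by positivity)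
      _ = (((n : ℝ) + 1) * (1 + 1 / ((n : ℝ) + 1))) ^ (2 * (lam - 1)) := by
          rw [Real.mul_rpow hn.le (by positivity)]
      _ = (((n + 1 : ℕ) : ℝ) + 1) ^ (2 * (lam - 1)) := by
          congr 1
          push_cast
          field_simp

lemma continuous_gr2 (n : ℕ) : Continuous fun t : ℝ => gr2 t n := by
  unfold gr2
  fun_prop

/-- The main estimate for one configuration. -/
theorem main2 (D : ℝ) (hD : 1 ≤ D) (k : ℕ) (hk : 1 ≤ k) (X : Type u) [MetricSpace X]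
    (A : Fin k → Set X)
    (hA : ∀ D' : ℝ, D < D' → ∀ i, ∃ (H : Type u) (_ : NormedAddCommGroup H)
      (_ : InnerProductSpace ℝ H) (f : A i → H), ∀ x y, ‖f x - f y‖ ≤ dist x y ∧
        dist x y ≤ D' * ‖f x - f y‖) :
    ∃ (H : Type u) (_ : NormedAddCommGroup H) (_ : InnerProductSpace ℝ H) (_ : CompleteSpace H)
      (Φ : (⋃ i, A i : Set X) → H), ∀ x y, dist x y ≤ ‖Φ x - Φ y‖ ∧
        ‖Φ x - Φ y‖ ≤ 4 * D * (k : ℝ) ^ (2 * √(D ^ 2 + 4) - 3 / 2) * dist x y := by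
  classical
  have hD0 : 0 < D := lt_of_lt_of_le one_pos hD
  have hk0 : (0 : ℝ) < k := by exact_mod_cast hk
  set E : ℝ := 2 * √(D ^ 2 + 4) - 3 / 2 with hE
  have hs2 : (2 : ℝ) ≤ √(D ^ 2 + 4) := Real.le_sqrt_of_sq_le (by nlinarith)
  have hkE : (0 : ℝ) < (k : ℝ) ^ E := Real.rpow_pos_of_pos hk0 _
  have hgr : gr2 (√(D ^ 2 + 4)) (k - 1) ^ 2 * k ≤ ((k : ℝ) ^ E) ^ 2 := by
    have h := gr2_le (lam := √(D ^ 2 + 4)) (by linarith) (k - 1)
    have h2 : (((k - 1 : ℕ) : ℝ) + 1) = k := by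
      have : (k - 1) + 1 = k := Nat.sub_add_cancel hk
      exact_mod_cast this
    rw [h2] at h
    have h0 : 0 ≤ gr2 (√(D ^ 2 + 4)) (k - 1) := by
      linarith [gr2_ge_one (lam := √(D ^ 2 + 4)) (by linarith) (k - 1)]
    have h3 := pow_le_pow_left₀ h0 h 2
    refine (mul_le_mul_of_nonneg_right h3 hk0.le).trans (le_of_eq ?_)
    rw [← Real.rpow_natCast ((k : ℝ) ^ (2 * (√(D ^ 2 + 4) - 1))) 2, ← Real.rpow_mul hk0.le,
      ← Real.rpow_natCast ((k : ℝ) ^ E) 2, ← Real.rpow_mul hk0.le]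
    have h4 : (k : ℝ) ^ (2 * (√(D ^ 2 + 4) - 1) * ((2 : ℕ) : ℝ)) * k
        = (k : ℝ) ^ (2 * (√(D ^ 2 + 4) - 1) * ((2 : ℕ) : ℝ)) * (k : ℝ) ^ (1 : ℝ) := by
      rw [Real.rpow_one]
    rw [h4, ← Real.rpow_add hk0]
    congr 1
    rw [hE]
    push_cast
    ring
  set R : ℝ := (4 * D * (k : ℝ) ^ E) ^ 2 with hR
  have hlt : 10 * D ^ 2 * k * gr2 (√(D ^ 2 + 4) + (D - D)) (k - 1) ^ 2 < R := by
    rw [sub_self, add_zero, hR]
    have h1 : 10 * D ^ 2 * (gr2 (√(D ^ 2 + 4)) (k - 1) ^ 2 * k)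
        ≤ 10 * D ^ 2 * ((k : ℝ) ^ E) ^ 2 :=
      mul_le_mul_of_nonneg_left hgr (by positivity)
    have h2 : 10 * D ^ 2 * ((k : ℝ) ^ E) ^ 2 < (4 * D * (k : ℝ) ^ E) ^ 2 := by
      have : 0 < D ^ 2 * ((k : ℝ) ^ E) ^ 2 := by positivity
      nlinarith
    linarith
  have hcont : Continuous fun t : ℝ =>
      10 * t ^ 2 * k * gr2 (√(t ^ 2 + 4) + (t - D)) (k - 1) ^ 2 := by
    have h1 : Continuous fun t : ℝ => gr2 (√(t ^ 2 + 4) + (t - D)) (k - 1) :=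
      (continuous_gr2 (k - 1)).comp (by fun_prop)
    fun_prop
  have hev : ∀ᶠ t in 𝓝[>] D, 10 * t ^ 2 * k * gr2 (√(t ^ 2 + 4) + (t - D)) (k - 1) ^ 2 < R :=
    (hcont.continuousAt.eventually (gt_mem_nhds hlt)).filter_mono nhdsWithin_le_nhds
  obtain ⟨D', hD'1, hD'2⟩ := (hev.and self_mem_nhdsWithin).exists
  have hD'3 : D < D' := hD'2
  have hD'pos : 0 < D' := by linarith
  set lam : ℝ := √(D' ^ 2 + 4) + (D' - D) with hlam
  have hsD' : (2 : ℝ) ≤ √(D' ^ 2 + 4) := Real.le_sqrt_of_sq_le (by nlinarith)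
  have hlam1 : 1 ≤ lam := by rw [hlam]; linarith
  have hlam2 : D' ^ 2 + 4 < lam ^ 2 := by
    have h1 : √(D' ^ 2 + 4) ^ 2 = D' ^ 2 + 4 := Real.sq_sqrt (by positivity)
    rw [hlam, add_sq, h1]
    have : 0 < 2 * √(D' ^ 2 + 4) * (D' - D) := by
      have : 0 < D' - D := by linarith
      positivity
    nlinarith [sq_nonneg (D' - D)]
  set M' : ℝ := gr2 lam (k - 1) ^ 2 with hM'
  have hM'1 : 1 ≤ M' := one_le_pow₀ (gr2_ge_one hlam1 _)
  have hpieces := hA D' hD'3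
  set Y : Set X := ⋃ i, A i with hY
  obtain ⟨H, i1, i2, i3, Φ, hΦ⟩ := limit_embedding (X := Y) (fun x y => dist x y)
      (10 * D' ^ 2 * k * M') (by
    intro T
    have hfinT : ∃ (ι : Type) (_ : Fintype ι) (Φ : {x // x ∈ T} → ι → ℝ), ∀ x y,
        dist x y ^ 2 ≤ ∑ a, (Φ x a - Φ y a) ^ 2 ∧
        ∑ a, (Φ x a - Φ y a) ^ 2 ≤ (10 * D' ^ 2 * k * M') * dist x y ^ 2 := by
      have hcov : ∀ x : {x // x ∈ T}, ∃ i, x ∈ (fun i : Fin k => {x : {x // x ∈ T} |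
          ((x : Y) : X) ∈ A i}) i := by
        intro x
        have hx : ((x : Y) : X) ∈ ⋃ i, A i := (x : Y).2
        obtain ⟨i, hi⟩ := Set.mem_iUnion.mp hx
        exact ⟨i, hi⟩
      have hg : ∀ j : Fin k, ∃ (ι : Type) (_ : Fintype ι) (g : {x // x ∈ T} → ι → ℝ),
          ∀ y ∈ (fun i : Fin k => {x : {x // x ∈ T} | ((x : Y) : X) ∈ A i}) j,
          ∀ z ∈ (fun i : Fin k => {x : {x // x ∈ T} | ((x : Y) : X) ∈ A i}) j,
          ∑ i, (g y i - g z i) ^ 2 ≤ dist y z ^ 2 ∧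
          dist y z ^ 2 ≤ D' ^ 2 * ∑ i, (g y i - g z i) ^ 2 := by
        intro j
        obtain ⟨H, i1, i2, f, hf⟩ := hpieces j
        obtain ⟨n, g, hg⟩ := exists_coords (T := {x // x ∈ T})
          (fun x => if h : ((x : Y) : X) ∈ A j then f ⟨_, h⟩ else 0)
        refine ⟨Fin n, inferInstance, g, ?_⟩
        intro y hy z hz
        have hy' : ((y : Y) : X) ∈ A j := hy
        have hz' : ((z : Y) : X) ∈ A j := hz
        rw [hg y z, dif_pos hy', dif_pos hz']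
        obtain ⟨h1, h2⟩ := hf ⟨_, hy'⟩ ⟨_, hz'⟩
        have hdd : dist (⟨((y : Y) : X), hy'⟩ : A j) ⟨((z : Y) : X), hz'⟩ = dist y z := rfl
        rw [hdd] at h1 h2
        refine ⟨pow_le_pow_left₀ (norm_nonneg _) h1 2, ?_⟩
        rw [← mul_pow]
        exact pow_le_pow_left₀ dist_nonneg h2 2
      refine fin_embedding2 (X := {x // x ∈ T}) (fun x y => dist x y) dist_comm
        (fun _ _ => dist_nonneg) dist_self (fun x y h => dist_pos.mpr h) dist_triangle D'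
        (by linarith) k (fun i => {x | ((x : Y) : X) ∈ A i}) hcov hg M' hM'1 ?_
      exact ext_one2 (X := {x // x ∈ T}) (fun x y => dist x y) dist_comm
        (fun _ _ => dist_nonneg) dist_self (fun x y h => dist_pos.mpr h) dist_triangle D'
        hD'pos.le k (fun i => {x | ((x : Y) : X) ∈ A i}) hcov hg lam (by linarith) hlam2
    obtain ⟨ι, hι, Φ, hΦ⟩ := hfinT
    refine ⟨ι, hι, fun x => if h : x ∈ T then Φ ⟨x, h⟩ else 0, ?_⟩
    intro x hx y hy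
    simp only [dif_pos hx, dif_pos hy]
    exact hΦ ⟨x, hx⟩ ⟨y, hy⟩)
  refine ⟨H, i1, i2, i3, Φ, fun x y => ?_⟩
  obtain ⟨h1, h2⟩ := hΦ x y
  constructor
  · exact (abs_le_of_sq_le_sq' h1 (norm_nonneg _)).2
  · have hq0 : 0 ≤ 4 * D * (k : ℝ) ^ E := by positivity
    have h5 : ‖Φ x - Φ y‖ ^ 2 ≤ (4 * D * (k : ℝ) ^ E * dist x y) ^ 2 := by
      rw [mul_pow, ← hR]
      exact h2.trans (mul_le_mul_of_nonneg_right hD'1.le (sq_nonneg _))
    exact (abs_le_of_sq_le_sq' h5 (mul_nonneg hq0 dist_nonneg)).2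

end H799U
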